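import Pool.Agent.Lib_helper40.TJ.V9

/-!
# Independence from the first order term
-/

set_option autoImplicit false
set_option linter.unusedSectionVars false

namespace Pool.Agent.TJ

open Polynomial

/-- the powers of a root of unity -/
lemma cyc {K : Type*} [Field K] [CharZero K] {p : ℕ} [NeZero p] {z : K}
    (hz : IsPrimitiveRoot z p) (hp : p.Prime) {n : ZMod p → ℤ} (h0 : n 0 = 0)
    (h : ∑ c : ZMod p, (n c : K) * ps hz c = 0) : ∀ c, n c = 0 := by
  obtain ⟨q, hq⟩ : ∃ q, p = q + 1 := ⟨p - 1, by have := hp.pos; omega⟩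
  obtain ⟨Q, hQ⟩ : ∃ Q : ℚ[X], Q = ∑ k ∈ Finset.range q, C ((n ((k + 1 : ℕ) : ZMod p) : ℚ)) * X ^ k :=
    ⟨_, rfl⟩
  have e1 : ∑ c : ZMod p, (n c : K) * ps hz c =
      ∑ k ∈ Finset.range p, (n ((k : ℕ) : ZMod p) : K) * z ^ k := by
    refine Finset.sum_nbij' (fun c => c.val) (fun k => ((k : ℕ) : ZMod p)) ?_ ?_ ?_ ?_ ?_
    · intro c _
      exact Finset.mem_range.mpr (ZMod.val_lt c)
    · intro k _
      exact Finset.mem_univ _
    · intro c _
      exact ZMod.natCast_zmod_val c
    · intro k hk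
      exact ZMod.val_cast_of_lt (Finset.mem_range.mp hk)
    · intro c _
      rw [ZMod.natCast_zmod_val, ps_apply]
  have e2 : aeval z Q * z = 0 := by
    have hr : Finset.range p = Finset.range (q + 1) := congrArg Finset.range hq
    rw [← h, e1, hr, Finset.sum_range_succ', Nat.cast_zero, h0, Int.cast_zero, zero_mul, add_zero,
      hQ, map_sum, Finset.sum_mul]
    refine Finset.sum_congr rfl fun k _ => ?_
    rw [map_mul, aeval_C, map_pow, aeval_X, map_intCast, pow_succ]
    ring
  have hz0 : z ≠ 0 := hz.ne_zero hp.pos.ne'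
  have e3 : aeval z Q = 0 := (mul_eq_zero.mp e2).resolve_right hz0
  have e4 : Q = 0 := by
    have hdvd := minpoly.dvd ℚ z e3
    have hdeg : (minpoly ℚ z).natDegree = q := by
      rw [← cyclotomic_eq_minpoly_rat hz hp.pos, natDegree_cyclotomic, Nat.totient_prime hp, hq]
      rfl
    refine eq_zero_of_dvd_of_degree_lt hdvd ?_
    rw [degree_eq_natDegree (minpoly.ne_zero (hz.isIntegral hp.pos).tower_top), hdeg,
      degree_lt_iff_coeff_zero]
    intro m hm
    rw [hQ, finsetSum_coeff]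
    refine Finset.sum_eq_zero fun k hk => ?_
    rw [coeff_C_mul, coeff_X_pow, if_neg, mul_zero]
    have := Finset.mem_range.mp hk
    omega
  intro c
  by_cases hc : c = 0
  · rw [hc, h0]
  have hv0 : c.val ≠ 0 := fun e => hc ((ZMod.val_eq_zero c).mp e)
  obtain ⟨k, hk⟩ : ∃ k, c.val = k + 1 := ⟨c.val - 1, by omega⟩
  have hkq : k < q := by
    have := ZMod.val_lt c
    omega
  have e5 := congrArg (fun R : ℚ[X] => R.coeff k) e4
  simp only [hQ, finsetSum_coeff, coeff_C_mul, coeff_X_pow, coeff_zero] at e5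
  rw [Finset.sum_eq_single k] at e5
  · rw [if_pos rfl, mul_one] at e5
    have e6 : ((k + 1 : ℕ) : ZMod p) = c := by rw [← hk, ZMod.natCast_zmod_val]
    rw [e6] at e5
    exact_mod_cast e5
  · intro j _ hj
    rw [if_neg (Ne.symm hj), mul_zero]
  · intro hj
    exact absurd (Finset.mem_range.mpr hkq) hj

variable {K : Type*} [Field K] [CharZero K] {p : ℕ} [NeZero p] {O : ValuationSubring K} {B z : K}
  {x : ZMod p → K}

/-- **independence**: the numbers `γ(c)` at a place of the first type -/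
theorem indep (hv : Res0 O.valuation) (hz : IsPrimitiveRoot z p) (hp : p.Prime) (h5 : 5 ≤ p)
    (t : Tor p 1 B x) (hB0 : B ≠ 0) (hB : O.valuation B < 1)
    (hx : ∀ c, c ≠ 0 → O.valuation (x c - Xc hz c) < 1) (n : ZMod p → ℤ)
    (hn : ∀ c, n (-c) = n c) (h0 : n 0 = 0) (hs : ∑ c, n c = 0)
    (hprod : ∏ c, gax 1 B x c ^ n c = 1) : ∀ c, n c = 0 := by
  have hβ : 0 < O.valuation B := zero_lt_iff.mpr ((O.valuation.ne_zero_iff).mpr hB0)
  -- the products
  have h1 := Fst.prod hB0 hB (Finset.univ.erase (0 : ZMod p))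
    (a := fun c => (gax 1 B x c / gax 1 0 (Xc hz) c) ^ n c)
    (α := fun c => (n c : K) * (15 * p / 8 - p / 8 * (1 / Xc hz c))) fun c hc =>
      (fst_gax hv hz hp h5 t hB0 hB hx (Finset.mem_erase.mp hc).1).zpow hB0 hB (n c)
  have e1 : ∏ c ∈ Finset.univ.erase (0 : ZMod p), gax 1 B x c ^ n c = 1 := by
    rw [← Finset.mul_prod_erase Finset.univ _ (Finset.mem_univ (0 : ZMod p)), h0, zpow_zero,
      one_mul] at hprod
    exact hprod
  have e2 : ∏ c ∈ Finset.univ.erase (0 : ZMod p), (gax 1 B x c / gax 1 0 (Xc hz) c) ^ n c =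
      (∏ c ∈ Finset.univ.erase (0 : ZMod p), gax 1 0 (Xc hz) c ^ n c)⁻¹ := by
    rw [Finset.prod_congr rfl fun c _ => div_zpow (gax 1 B x c) (gax 1 0 (Xc hz) c) (n c),
      Finset.prod_div_distrib, e1, one_div]
  rw [e2] at h1
  set Q := ∏ c ∈ Finset.univ.erase (0 : ZMod p), gax 1 0 (Xc hz) c ^ n c with hQ
  set β := ∑ c ∈ Finset.univ.erase (0 : ZMod p),
    (n c : K) * (15 * p / 8 - p / 8 * (1 / Xc hz c)) with hβdef
  have zalg : ∀ {a : K} (m : ℤ), IsAlgebraic ℚ a → IsAlgebraic ℚ (a ^ m) := by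
    intro a m ha
    obtain ⟨k, rfl | rfl⟩ := Int.eq_nat_or_neg m
    · rw [zpow_natCast]; exact ha.pow k
    · rw [zpow_neg, zpow_natCast]; exact (ha.pow k).inv
  have hQalg : IsAlgebraic ℚ Q := by
    have : ∀ s : Finset (ZMod p), (∀ c ∈ s, c ≠ 0) →
        IsAlgebraic ℚ (∏ c ∈ s, gax 1 0 (Xc hz) c ^ n c) := by
      intro s
      induction s using Finset.cons_induction with
      | empty => intro _; rw [Finset.prod_empty]; exact isAlgebraic_one
      | cons a s ha ih =>
        intro hs'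
        rw [Finset.prod_cons]
        exact (zalg _ (g0_alg hz hp h5 (hs' a (Finset.mem_cons_self a s)))).mul
          (ih fun c hc => hs' c (Finset.mem_cons_of_mem hc))
    exact this _ fun c hc => (Finset.mem_erase.mp hc).1
  have intalg : ∀ m : ℤ, IsAlgebraic ℚ (m : K) := by
    intro m
    have : (m : K) = algebraMap ℚ K m := by rw [map_intCast]
    rw [this]
    exact isAlgebraic_algebraMap _
  have hβalg : IsAlgebraic ℚ β := by
    have hpalg : IsAlgebraic ℚ (p : K) := by
      have := intalg (p : ℤ)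
      rwa [Int.cast_natCast] at this
    have h8 : IsAlgebraic ℚ (8 : K) := alg_ofNat hz 8
    have h15 : IsAlgebraic ℚ (15 : K) := alg_ofNat hz 15
    have : ∀ s : Finset (ZMod p), IsAlgebraic ℚ (∑ c ∈ s,
        (n c : K) * (15 * p / 8 - p / 8 * (1 / Xc hz c))) := by
      intro s
      induction s using Finset.cons_induction with
      | empty => rw [Finset.sum_empty]; exact isAlgebraic_zero
      | cons a s ha ih =>
        rw [Finset.sum_cons]
        refine IsAlgebraic.add ((intalg _).mul (IsAlgebraic.sub ?_ (IsAlgebraic.mul ?_ ?_))) ih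
        · rw [div_eq_mul_inv]; exact (h15.mul hpalg).mul h8.inv
        · rw [div_eq_mul_inv]; exact hpalg.mul h8.inv
        · rw [one_div]; exact (Xc_alg hz hp a).inv
    exact this _
  have hQ1 : Q⁻¹ = 1 := by
    by_contra hne
    have h2 := alg_unit hv (hQalg.inv.sub isAlgebraic_one) (sub_ne_zero.mpr hne)
    have h3 := h1.sub_one
    rw [h2] at h3
    exact absurd hB (not_lt.mpr h3)
  have hβ0 : β = 0 := by
    by_contra hne
    have h2 := alg_unit hv hβalg hne
    have h3 := h1.1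
    rw [hQ1, sub_self, zero_sub, Valuation.map_neg, map_mul, h2, mul_one] at h3
    exact lt_irrefl _ h3
  -- the sums
  have hp0 : (p : K) ≠ 0 := by exact_mod_cast hp.ne_zero
  have s1 : ∑ c : ZMod p, (n c : K) * (15 * p / 8 - p / 8 * (1 / Xc hz c)) = 0 := by
    rw [← Finset.add_sum_erase Finset.univ _ (Finset.mem_univ (0 : ZMod p)), h0, Int.cast_zero,
      zero_mul, zero_add]
    exact hβ0
  have hsK : ∑ c : ZMod p, (n c : K) = 0 := by
    rw [← Int.cast_sum, hs, Int.cast_zero]
  have s2 : ∑ c : ZMod p, (n c : K) * (1 / Xc hz c) = 0 := by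
    have e : ∑ c : ZMod p, (n c : K) * (15 * p / 8 - p / 8 * (1 / Xc hz c)) =
        15 * p / 8 * ∑ c : ZMod p, (n c : K) - p / 8 * ∑ c : ZMod p, (n c : K) * (1 / Xc hz c) := by
      rw [Finset.mul_sum, Finset.mul_sum, ← Finset.sum_sub_distrib]
      refine Finset.sum_congr rfl fun c _ => ?_
      ring
    rw [e, hsK, mul_zero, zero_sub, neg_eq_zero] at s1
    rcases mul_eq_zero.mp s1 with h | h
    · exact absurd h (div_ne_zero hp0 (by norm_num))
    · exact h
  have s3 : ∑ c : ZMod p, (n c : K) * ps hz (-c) = ∑ c : ZMod p, (n c : K) * ps hz c := by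
    rw [← Equiv.sum_comp (Equiv.neg (ZMod p)) (fun c => (n c : K) * ps hz c)]
    refine Finset.sum_congr rfl fun c _ => ?_
    rw [Equiv.neg_apply, hn]
  have s4 : ∑ c : ZMod p, (n c : K) * ps hz c = 0 := by
    have e : ∑ c : ZMod p, (n c : K) * (1 / Xc hz c) =
        (∑ c : ZMod p, (n c : K) * ps hz c - 2 * ∑ c : ZMod p, (n c : K) +
          ∑ c : ZMod p, (n c : K) * ps hz (-c)) / 4 := by
      rw [Finset.mul_sum, ← Finset.sum_sub_distrib, ← Finset.sum_add_distrib, Finset.sum_div]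
      refine Finset.sum_congr rfl fun c _ => ?_
      rw [Xc_inv]
      ring
    rw [e, hsK, s3, mul_zero, sub_zero] at s2
    have h4 : (4 : K) ≠ 0 := by norm_num
    have h2 : (2 : K) ≠ 0 := by norm_num
    have s5 : 2 * ∑ c : ZMod p, (n c : K) * ps hz c = 0 := by
      have := (div_eq_zero_iff.mp s2).resolve_right h4
      rw [two_mul]
      exact this
    exact (mul_eq_zero.mp s5).resolve_left h2
  exact cyc hz hp h0 s4

end Pool.Agent.TJ
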