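import Pool.Agent.Lib_helper40.TJ.V3

/-!
# The place: multiplicative reduction of the first type
-/

set_option autoImplicit false

namespace Pool.Agent.TJ

open Polynomial

section scale

variable {K : Type*} [Field K] {p : ℕ} {A B : K} {x : ZMod p → K}

lemma ff_scale (w A B x : K) : ff (w * A) (w ^ 3 * B) (w * x) = w ^ 3 * ff A B x := by
  unfold ff
  ring

/-- scaling -/
lemma Tor.scale (t : Tor p A B x) {w : K} (hw : w ≠ 0) :
    Tor p (w * A) (w ^ 3 * B) (fun c => w * x c) where
  even c := by rw [t.even]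
  ne0 c hc := by
    rw [ff_scale]
    exact mul_ne_zero (pow_ne_zero 3 hw) (t.ne0 c hc)
  dbl c hc := by
    rw [ff_scale]
    linear_combination w ^ 4 * t.dbl c hc
  ne b c hb hc h1 h2 := fun h => t.ne b c hb hc h1 h2 (mul_left_cancel₀ hw h)
  sum b c hb hc h1 h2 := by
    linear_combination w ^ 3 * t.sum b c hb hc h1 h2
  prod b c hb hc h1 h2 := by
    linear_combination w ^ 4 * t.prod b c hb hc h1 h2

lemma ff_flip (r B x : K) : ff (3 * r) (-(B + 4 * r ^ 3)) (-(x + 2 * r)) = - ff (3 * r) B x := by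
  unfold ff
  ring

/-- the other cusp of the discriminant -/
lemma Tor.flip {r : K} (t : Tor p (3 * r) B x) :
    Tor p (3 * r) (-(B + 4 * r ^ 3)) (fun c => -(x c + 2 * r)) where
  even c := by rw [t.even]
  ne0 c hc := by
    rw [ff_flip]
    exact neg_ne_zero.mpr (t.ne0 c hc)
  dbl c hc := by
    rw [ff_flip]
    have := t.dbl c hc
    unfold ff at this ⊢
    linear_combination this
  ne b c hb hc h1 h2 := fun h => t.ne b c hb hc h1 h2 (by linear_combination -h)
  sum b c hb hc h1 h2 := by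
    linear_combination -(t.sum b c hb hc h1 h2)
  prod b c hb hc h1 h2 := by
    linear_combination t.prod b c hb hc h1 h2 + 2 * r * t.sum b c hb hc h1 h2

variable [NeZero p]

lemma DD_scale {w : K} (hw : w ≠ 0) (A B : K) (x : ZMod p → K) :
    DD (w * A) (w ^ 3 * B) (fun c => w * x c) = DD A B x := by
  unfold DD
  have e1 : w ^ 3 * B * (4 * (w * A) ^ 3 + 27 * (w ^ 3 * B)) =
      w ^ 6 * (B * (4 * A ^ 3 + 27 * B)) := by ring
  have e2 : (∏ c : ZMod p, if c = 0 then 1 else ff (w * A) (w ^ 3 * B) (w * x c) ^ 2) =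
      (w ^ 6) ^ (p - 1) * ∏ c : ZMod p, if c = 0 then 1 else ff A B (x c) ^ 2 := by
    have e3 : (w ^ 6) ^ (p - 1) = ∏ c : ZMod p, if c = 0 then 1 else w ^ 6 := by
      rw [← Finset.mul_prod_erase Finset.univ _ (Finset.mem_univ (0 : ZMod p)), if_pos rfl,
        one_mul, Finset.prod_congr rfl (g := fun _ => w ^ 6), Finset.prod_const,
        Finset.card_erase_of_mem (Finset.mem_univ _), Finset.card_univ, ZMod.card]
      intro c hc
      rw [if_neg (Finset.mem_erase.mp hc).1]
    rw [e3, ← Finset.prod_mul_distrib]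
    refine Finset.prod_congr rfl fun c _ => ?_
    split_ifs
    · rw [mul_one]
    · rw [ff_scale]; ring
  rw [e1, e2, mul_pow, mul_div_mul_left]
  exact pow_ne_zero _ (pow_ne_zero _ hw)

lemma DD_flip (r B : K) (x : ZMod p → K) :
    DD (3 * r) (-(B + 4 * r ^ 3)) (fun c => -(x c + 2 * r)) = DD (3 * r) B x := by
  unfold DD
  have e1 : -(B + 4 * r ^ 3) * (4 * (3 * r) ^ 3 + 27 * -(B + 4 * r ^ 3)) =
      B * (4 * (3 * r) ^ 3 + 27 * B) := by ring
  rw [e1]
  congr 1
  refine Finset.prod_congr rfl fun c _ => ?_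
  split_ifs
  · rfl
  · rw [ff_flip, neg_sq]

lemma gax_flip (hp : p.Prime) (h5 : 5 ≤ p) (r B : K) (x : ZMod p → K) {c : ZMod p} (hc : c ≠ 0) :
    gax (3 * r) (-(B + 4 * r ^ 3)) (fun c => -(x c + 2 * r)) c = -1 * gax (3 * r) B x c := by
  unfold gax
  have e : (∏ b : ZMod p, if b = 0 ∨ b = c ∨ b = -c then 1 else
      -(x c + 2 * r) - -(x b + 2 * r)) =
      ∏ b : ZMod p, if b = 0 ∨ b = c ∨ b = -c then 1 else x c - x b := by
    have h1 : ∀ F : ZMod p → K, (∏ b : ZMod p, if b = 0 ∨ b = c ∨ b = -c then 1 else F b) =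
        ∏ b ∈ Sb c, F b := by
      intro F
      rw [prod_split hp h5 _ hc, if_pos (Or.inl rfl), if_pos (Or.inr (Or.inl rfl)),
        if_pos (Or.inr (Or.inr rfl)), one_mul, one_mul, one_mul]
      refine Finset.prod_congr rfl fun b hb => ?_
      obtain ⟨b1, b2, b3⟩ := mem_Sb.mp hb
      rw [if_neg]
      rintro (h | h | h)
      · exact b3 h
      · exact b2 h
      · exact b1 h
    rw [h1, h1]
    have h2 : ∀ b, -(x c + 2 * r) - -(x b + 2 * r) = -1 * (x c - x b) := fun b => by ring
    rw [Finset.prod_congr rfl fun b _ => h2 b, Finset.prod_mul_distrib, Finset.prod_const]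
    have hcard := card_Sb hp h5 hc
    have hev : Even (Sb c).card := by
      rcases hp.eq_two_or_odd' with h | h
      · omega
      · obtain ⟨m, hm⟩ := h
        exact ⟨m - 1, by omega⟩
    rw [hev.neg_one_pow, one_mul]
  rw [e, ff_flip]
  ring

end scale

section place

variable {K : Type*} [Field K] [CharZero K]

/-- a place at a transcendental element -/
lemma exists_place {t : K} (ht : Transcendental ℚ t) :
    ∃ O : ValuationSubring K, Res0 O.valuation ∧ O.valuation t < 1 := by
  have htm : t ∈ (Algebra.adjoin ℚ {t}).toSubring := Algebra.self_mem_adjoin_singleton ℚ t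
  obtain ⟨O, hO1, hO2⟩ := Ideal.image_subset_nonunits_valuationSubring
    (A := (Algebra.adjoin ℚ {t}).toSubring) (Ideal.span {⟨t, htm⟩}) (by
      intro h
      rw [Ideal.eq_top_iff_one, Ideal.mem_span_singleton] at h
      obtain ⟨⟨a, ha⟩, ha'⟩ := h
      have ha2 : (1 : K) = t * a := congrArg Subtype.val ha'
      have ha3 : a ∈ Algebra.adjoin ℚ {t} := ha
      rw [Algebra.adjoin_singleton_eq_range_aeval] at ha3
      obtain ⟨f, hf⟩ := ha3
      have hf' : aeval t f = a := hf
      apply ht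
      refine ⟨X * f - 1, ?_, ?_⟩
      · intro h0
        have := congrArg (eval 0) h0
        simp at this
      · rw [map_sub, map_mul, aeval_X, hf', map_one, ← ha2, sub_self])
  refine ⟨O, ?_, ?_⟩
  · have hQ : ∀ q : ℚ, algebraMap ℚ K q ∈ O := fun q =>
      hO1 ((Algebra.adjoin ℚ {t}).algebraMap_mem q)
    intro n hn
    have h1 : O.valuation (n : K) ≤ 1 := by
      rw [ValuationSubring.valuation_le_one_iff]
      have := hQ n
      rwa [map_intCast] at this
    have h2 : O.valuation (n : K)⁻¹ ≤ 1 := by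
      rw [ValuationSubring.valuation_le_one_iff]
      have := hQ (n : ℚ)⁻¹
      rwa [map_inv₀, map_intCast] at this
    have hn0 : (n : K) ≠ 0 := by exact_mod_cast hn
    have h3 : O.valuation (n : K) ≠ 0 := (O.valuation.ne_zero_iff).mpr hn0
    rw [map_inv₀] at h2
    exact le_antisymm h1 ((inv_le_one₀ (zero_lt_iff.mpr h3)).mp h2)
  · rw [← ValuationSubring.mem_nonunits_iff]
    exact hO2 ⟨⟨t, htm⟩, Ideal.subset_span rfl, rfl⟩

/-- algebraic elements are units -/
lemma alg_unit {O : ValuationSubring K} (hv : Res0 O.valuation) {z : K} (hz : IsAlgebraic ℚ z)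
    (h0 : z ≠ 0) : O.valuation z = 1 := by
  have hQ : ∀ q : ℚ, algebraMap ℚ K q ∈ O := by
    intro q
    rw [← ValuationSubring.valuation_le_one_iff]
    have e : algebraMap ℚ K q = (q.num : K) / ((q.den : ℤ) : K) := by
      rw [eq_ratCast]
      push_cast
      exact Rat.cast_def q
    rw [e, map_div₀, hv q.den (by exact_mod_cast q.den_nz), div_one]
    exact hv.int _
  let φ : ℚ →+* O := (algebraMap ℚ K).codRestrict O.toSubring hQ
  have key : ∀ z : K, IsAlgebraic ℚ z → O.valuation z ≤ 1 := by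
    intro z hz
    rw [ValuationSubring.valuation_le_one_iff]
    obtain ⟨f, hf, hf'⟩ := hz.isIntegral
    have hint : IsIntegral O z := by
      refine ⟨f.map φ, hf.map φ, ?_⟩
      rw [eval₂_map]
      exact hf'
    obtain ⟨y, hy⟩ := IsIntegrallyClosed.isIntegral_iff.mp hint
    rw [← hy]
    exact y.2
  have h1 := key z hz
  have h2 := key z⁻¹ hz.inv
  have h3 : O.valuation z ≠ 0 := (O.valuation.ne_zero_iff).mpr h0
  rw [map_inv₀] at h2
  exact le_antisymm h1 ((inv_le_one₀ (zero_lt_iff.mpr h3)).mp h2)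

end place

end Pool.Agent.TJ
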