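import Mathlib
import Pool.Agent.Lib_helper24.TJ.Tor

/-!
# Valuations of the abscissae of the multiples of a point of prime order: good reduction
-/

set_option autoImplicit false

namespace Pool.Agent.TJ

variable {K : Type*} [Field K] {G : Type*} [LinearOrderedCommGroupWithZero G] {v : Valuation K G}
  {p : ℕ} {A B : K} {x : ZMod p → K}

/-- residue characteristic zero -/
def Res0 (v : Valuation K G) : Prop := ∀ n : ℤ, n ≠ 0 → v (n : K) = 1

lemma Res0.two (hv : Res0 v) : v 2 = 1 := by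
  have := hv 2 (by norm_num)
  push_cast at this
  exact this

lemma Res0.four (hv : Res0 v) : v 4 = 1 := by
  have := hv 4 (by norm_num)
  push_cast at this
  exact this

lemma Res0.eight (hv : Res0 v) : v 8 = 1 := by
  have := hv 8 (by norm_num)
  push_cast at this
  exact this

lemma Res0.nine (hv : Res0 v) : v 9 = 1 := by
  have := hv 9 (by norm_num)
  push_cast at this
  exact this

lemma Res0.three (hv : Res0 v) : v 3 = 1 := by
  have := hv 3 (by norm_num)
  push_cast at this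
  exact this

lemma Res0.tw7 (hv : Res0 v) : v 27 = 1 := by
  have := hv 27 (by norm_num)
  push_cast at this
  exact this

lemma Res0.char (hv : Res0 v) {n : ℤ} (hn : n ≠ 0) : (n : K) ≠ 0 := by
  intro h
  have := hv n hn
  rw [h, map_zero] at this
  exact zero_ne_one this

lemma two_mul_ne (hp : p.Prime) (h5 : 5 ≤ p) {c : ZMod p} (hc : c ≠ 0) : 2 * c ≠ 0 := by
  have := Fact.mk hp
  have h2 : (2 : ZMod p) ≠ 0 := by
    have : ((2 : ℕ) : ZMod p) ≠ 0 := by
      rw [Ne, ZMod.natCast_eq_zero_iff]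
      intro h
      have := Nat.le_of_dvd (by norm_num) h
      omega
    exact_mod_cast this
  exact mul_ne_zero h2 hc

lemma pow_mul_ne (hp : p.Prime) (h5 : 5 ≤ p) {c : ZMod p} (hc : c ≠ 0) (r : ℕ) :
    2 ^ r * c ≠ 0 := by
  induction r with
  | zero => rwa [pow_zero, one_mul]
  | succ n ih =>
    have := two_mul_ne hp h5 ih
    rw [pow_succ']
    rwa [mul_assoc]

/-- one doubling at a point with a pole -/
lemma dbl_big (hv : Res0 v) (t : Tor p A B x) (hA : v A ≤ 1) (hB : v B ≤ 1) {c : ZMod p}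
    (hc : c ≠ 0) (h : 1 < v (x c)) : v (4 * x (2 * c) - x c) ≤ 1 ∧ v (x (2 * c)) = v (x c) := by
  set X := x c with hX
  have h1 : (4 * x (2 * c) - X) * ff A B X = -(A * X ^ 3) + (-(9 * B * X) + -(4 * A * B)) := by
    have := t.dbl c hc
    rw [← hX] at this
    have e : (4 * x (2 * c) - X) * ff A B X = x (2 * c) * (4 * ff A B X) - X * ff A B X := by ring
    rw [e, this]
    unfold ff
    ring
  have hX0 : v X ≠ 0 := ne_of_gt (lt_trans zero_lt_one h)
  have hX1 : (1 : G) ≤ v X := h.le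
  have hp23 : v X ^ 2 < v X ^ 3 := by
    exact pow_lt_pow_right₀ h (by norm_num)
  have h2 : v (ff A B X) = v X ^ 3 := by
    unfold ff
    rw [add_assoc, Valuation.map_add_eq_of_lt_left, map_pow]
    rw [map_pow]
    refine lt_of_le_of_lt (v.map_add _ _) (max_lt ?_ ?_)
    · rw [map_mul, map_pow]
      exact lt_of_le_of_lt (mul_le_of_le_one_left' hA) hp23
    · exact lt_of_le_of_lt hB (one_lt_pow₀ h (by norm_num))
  have h3 : v (-(A * X ^ 3) + (-(9 * B * X) + -(4 * A * B))) ≤ v X ^ 3 := by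
    refine (v.map_add _ _).trans (max_le ?_ ((v.map_add _ _).trans (max_le ?_ ?_)))
    · rw [Valuation.map_neg, map_mul, map_pow]
      exact mul_le_of_le_one_left' hA
    · rw [Valuation.map_neg, map_mul, map_mul, hv.nine, one_mul]
      calc v B * v X ≤ v X := mul_le_of_le_one_left' hB
        _ ≤ v X ^ 3 := le_self_pow₀ hX1 (by norm_num)
    · rw [Valuation.map_neg, map_mul, map_mul, hv.four, one_mul]
      exact (mul_le_one' hA hB).trans (one_le_pow₀ hX1)
  have h4 : v (4 * x (2 * c) - X) ≤ 1 := by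
    have := congrArg v h1
    rw [map_mul, h2] at this
    by_contra hcon
    push Not at hcon
    have h5 : v X ^ 3 < v (4 * x (2 * c) - X) * v X ^ 3 := by
      have := mul_lt_mul_of_pos_right hcon (pow_pos (lt_trans zero_lt_one h) 3)
      rwa [one_mul] at this
    rw [this] at h5
    exact absurd h3 (not_le.mpr h5)
  refine ⟨h4, ?_⟩
  have h5 : v (4 * x (2 * c)) = v X := by
    have e : 4 * x (2 * c) = (4 * x (2 * c) - X) + X := by ring
    rw [e, Valuation.map_add_eq_of_lt_right]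
    exact lt_of_le_of_lt h4 h
  rw [map_mul, hv.four, one_mul] at h5
  exact h5

/-- **the abscissae are integral** -/
theorem int (hv : Res0 v) (hp : p.Prime) (h5 : 5 ≤ p) (t : Tor p A B x) (hA : v A ≤ 1)
    (hB : v B ≤ 1) {c : ZMod p} (hc : c ≠ 0) : v (x c) ≤ 1 := by
  by_contra hcon
  push Not at hcon
  have key : ∀ r : ℕ, v (x (2 ^ r * c)) = v (x c) ∧ v (4 ^ r * x (2 ^ r * c) - x c) ≤ 1 := by
    intro r
    induction r with
    | zero => rw [pow_zero, one_mul, pow_zero, one_mul, sub_self, map_zero]; exact ⟨rfl, zero_le⟩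
    | succ n ih =>
      obtain ⟨h1, h2⟩ := ih
      obtain ⟨h3, h4⟩ := dbl_big hv t hA hB (pow_mul_ne hp h5 hc n) (by rw [h1]; exact hcon)
      have e : 2 ^ (n + 1) * c = 2 * (2 ^ n * c) := by rw [pow_succ']; ring
      rw [e]
      refine ⟨h4.trans h1, ?_⟩
      have e2 : 4 ^ (n + 1) * x (2 * (2 ^ n * c)) - x c =
          4 ^ n * (4 * x (2 * (2 ^ n * c)) - x (2 ^ n * c)) +
            (4 ^ n * x (2 ^ n * c) - x c) := by rw [pow_succ]; ring
      rw [e2]
      refine (v.map_add _ _).trans (max_le ?_ h2)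
      rw [map_mul, map_pow, hv.four, one_pow, one_mul]
      exact h3
  have := Fact.mk hp
  have h2 : (2 : ZMod p) ≠ 0 := by
    have := two_mul_ne hp h5 (c := 1) one_ne_zero
    rwa [mul_one] at this
  obtain ⟨-, h4⟩ := key (p - 1)
  rw [ZMod.pow_card_sub_one_eq_one h2, one_mul] at h4
  have e : (4 : K) ^ (p - 1) * x c - x c = ((4 ^ (p - 1) - 1 : ℤ) : K) * x c := by
    push_cast
    ring
  have h6 : (4 ^ (p - 1) - 1 : ℤ) ≠ 0 := by
    have : (1 : ℤ) < 4 ^ (p - 1) := one_lt_pow₀ (by norm_num) (by omega)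
    omega
  rw [e, map_mul, hv _ h6, one_mul] at h4
  exact absurd hcon (not_lt.mpr h4)

/-- the derivative of the cubic -/
def fd (A x : K) : K := 3 * x ^ 2 + 2 * A * x

lemma disc_id (A B x : K) : 27 * (B * (4 * A ^ 3 + 27 * B)) =
    fd A x * (12 * A ^ 4 + (9 * x + 3 * A) *
      (27 * ff A B x - (9 * x + 3 * A) * fd A x - 54 * B - 4 * A ^ 3)) +
    ff A B x * (-27 * (27 * ff A B x - (9 * x + 3 * A) * fd A x - 54 * B - 4 * A ^ 3)) := by
  unfold ff fd
  ring

lemma v_int_mul {a b : K} (ha : v a ≤ 1) (hb : v b ≤ 1) : v (a * b) ≤ 1 := by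
  rw [map_mul]; exact mul_le_one' ha hb

lemma v_int_add {a b : K} (ha : v a ≤ 1) (hb : v b ≤ 1) : v (a + b) ≤ 1 :=
  (v.map_add a b).trans (max_le ha hb)

lemma v_int_sub {a b : K} (ha : v a ≤ 1) (hb : v b ≤ 1) : v (a - b) ≤ 1 :=
  (v.map_sub a b).trans (max_le ha hb)

lemma v_int_pow {a : K} (ha : v a ≤ 1) (n : ℕ) : v (a ^ n) ≤ 1 := by
  rw [map_pow]; exact pow_le_one' ha n

lemma Res0.int (hv : Res0 v) (n : ℤ) : v (n : K) ≤ 1 := by
  by_cases h : n = 0
  · rw [h, Int.cast_zero, map_zero]; exact zero_le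
  · exact (hv n h).le

lemma ff_int (hA : v A ≤ 1) (hB : v B ≤ 1) {X : K} (hX : v X ≤ 1) : v (ff A B X) ≤ 1 :=
  v_int_add (v_int_add (v_int_pow hX 3) (v_int_mul hA (v_int_pow hX 2))) hB

/-- **good reduction**: the ordinates are units -/
theorem good (hv : Res0 v) (hp : p.Prime) (h5 : 5 ≤ p) (t : Tor p A B x) (hA : v A ≤ 1)
    (hB : v B ≤ 1) (hD : v (B * (4 * A ^ 3 + 27 * B)) = 1) {c : ZMod p} (hc : c ≠ 0) :
    v (ff A B (x c)) = 1 := by
  set X := x c with hX
  have hXi : v X ≤ 1 := int hv hp h5 t hA hB hc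
  have hXi2 : v (x (2 * c)) ≤ 1 := int hv hp h5 t hA hB (two_mul_ne hp h5 hc)
  have hf : v (ff A B X) ≤ 1 := ff_int hA hB hXi
  by_contra hne
  have hlt : v (ff A B X) < 1 := lt_of_le_of_ne hf hne
  have c3 : v (3 : K) ≤ 1 := hv.three.le
  have c2 : v (2 : K) ≤ 1 := hv.two.le
  have c4 : v (4 : K) ≤ 1 := hv.four.le
  have c9 : v (9 : K) ≤ 1 := hv.nine.le
  have c27 : v (27 : K) ≤ 1 := hv.tw7.le
  have c54 : v (54 : K) ≤ 1 := by have := hv.int (v := v) 54; exact_mod_cast this
  have c12 : v (12 : K) ≤ 1 := by have := hv.int (v := v) 12; exact_mod_cast this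
  have hfd : v (fd A X) ≤ 1 := v_int_add (v_int_mul c3 (v_int_pow hXi 2))
    (v_int_mul (v_int_mul c2 hA) hXi)
  have hl : v (9 * X + 3 * A) ≤ 1 := v_int_add (v_int_mul c9 hXi) (v_int_mul c3 hA)
  have hr : v (27 * ff A B X - (9 * X + 3 * A) * fd A X - 54 * B - 4 * A ^ 3) ≤ 1 :=
    v_int_sub (v_int_sub (v_int_sub (v_int_mul c27 hf) (v_int_mul hl hfd)) (v_int_mul c54 hB))
      (v_int_mul c4 (v_int_pow hA 3))
  have hfd1 : v (fd A X) = 1 := by
    by_contra hne'
    have hlt' : v (fd A X) < 1 := lt_of_le_of_ne hfd hne'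
    have h1 := congrArg v (disc_id A B X)
    rw [map_mul, hv.tw7, one_mul, hD] at h1
    have h2 : v (fd A X * (12 * A ^ 4 + (9 * X + 3 * A) *
      (27 * ff A B X - (9 * X + 3 * A) * fd A X - 54 * B - 4 * A ^ 3)) +
      ff A B X * (-27 * (27 * ff A B X - (9 * X + 3 * A) * fd A X - 54 * B - 4 * A ^ 3))) < 1 := by
      refine lt_of_le_of_lt (v.map_add _ _) (max_lt ?_ ?_)
      · rw [map_mul]
        refine lt_of_le_of_lt (mul_le_of_le_one_right' ?_) hlt'
        exact v_int_add (v_int_mul c12 (v_int_pow hA 4)) (v_int_mul hl hr)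
      · rw [map_mul]
        refine lt_of_le_of_lt (mul_le_of_le_one_right' ?_) hlt
        refine v_int_mul ?_ hr
        rw [Valuation.map_neg]
        exact c27
    rw [← h1] at h2
    exact lt_irrefl _ h2
  have h3 : fd A X ^ 2 = 4 * ff A B X * (x (2 * c) + A + 2 * X) := by
    have := t.dbl c hc
    rw [← hX] at this
    have e : 4 * ff A B X * (x (2 * c) + A + 2 * X) =
      x (2 * c) * (4 * ff A B X) + 4 * ff A B X * (A + 2 * X) := by ring
    rw [e, this]
    unfold ff fd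
    ring
  have h4 := congrArg v h3
  rw [map_pow, hfd1, one_pow, map_mul, map_mul, hv.four, one_mul] at h4
  have h6 : v (x (2 * c) + A + 2 * X) ≤ 1 := v_int_add (v_int_add hXi2 hA) (v_int_mul c2 hXi)
  have h7 : v (ff A B X) * v (x (2 * c) + A + 2 * X) < 1 :=
    lt_of_le_of_lt (mul_le_of_le_one_right' h6) hlt
  rw [← h4] at h7
  exact lt_irrefl _ h7

end Pool.Agent.TJ
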