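import Pool.Agent.Lib_helper40.TJ.V1

/-!
# Valuations of the abscissae of the multiples of a point of prime order: the second type
-/

set_option autoImplicit false

namespace Pool.Agent.TJ

variable {K : Type*} [Field K] {G : Type*} [LinearOrderedCommGroupWithZero G] {v : Valuation K G}
  {p : ℕ} {A B : K} {x : ZMod p → K}

/-- the invariant `Δ ^ (p - 1) / ∏ f(x c)²` -/
noncomputable def DD [NeZero p] (A B : K) (x : ZMod p → K) : K :=
  (B * (4 * A ^ 3 + 27 * B)) ^ (p - 1) / ∏ c : ZMod p, if c = 0 then 1 else ff A B (x c) ^ 2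

/-- the doubling in the second type, part (a) -/
lemma t2a (hv : Res0 v) (hp : p.Prime) (h5 : 5 ≤ p) (t : Tor p A B x) (hA : v A = 1)
    (hB0 : B ≠ 0) (hB : v B < 1) (hx : ∀ c, c ≠ 0 → v (x c) < 1) {c : ZMod p} (hc : c ≠ 0) :
    v B < v (x c) ^ 2 := by
  by_contra hcon
  push Not at hcon
  set X := x c with hX
  have hβ : 0 < v B := zero_lt_iff.mpr ((v.ne_zero_iff).mpr hB0)
  have hX1 := hx c hc
  rw [← hX] at hX1
  have h1 : v (X ^ 4 - 8 * B * X - 4 * A * B) = v B := by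
    have e : X ^ 4 - 8 * B * X - 4 * A * B = (X ^ 4 + -(8 * B * X)) + -(4 * A * B) := by ring
    rw [e, Valuation.map_add_eq_of_lt_right]
    · rw [Valuation.map_neg, map_mul, map_mul, hv.four, hA, one_mul, one_mul]
    · rw [Valuation.map_neg, map_mul, map_mul, hv.four, hA, one_mul, one_mul]
      refine lt_of_le_of_lt (v.map_add _ _) (max_lt ?_ ?_)
      · rw [map_pow]
        calc v X ^ 4 = v X ^ 2 * v X ^ 2 := by rw [← pow_add]
          _ ≤ v B * v B := mul_le_mul' hcon hcon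
          _ < v B * 1 := by
            exact mul_lt_mul_of_pos_left hB hβ
          _ = v B := mul_one _
      · rw [Valuation.map_neg, map_mul, map_mul, hv.eight, one_mul]
        calc v B * v X < v B * 1 := mul_lt_mul_of_pos_left hX1 hβ
          _ = v B := mul_one _
  have h2 : v (ff A B X) ≤ v B := by
    refine (v.map_add _ _).trans (max_le ((v.map_add _ _).trans (max_le ?_ ?_)) le_rfl)
    · rw [map_pow]
      calc v X ^ 3 = v X ^ 2 * v X := pow_succ _ _
        _ ≤ v B * 1 := mul_le_mul' hcon hX1.le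
        _ = v B := mul_one _
    · rw [map_mul, hA, one_mul, map_pow]
      exact hcon
  have h3 := congrArg v (t.dbl c hc)
  rw [← hX, h1, map_mul, map_mul, hv.four, one_mul] at h3
  have h4 : v (x (2 * c)) * v (ff A B X) < v B := by
    calc v (x (2 * c)) * v (ff A B X) ≤ v (x (2 * c)) * v B := mul_le_mul_right h2 _
      _ < 1 * v B := mul_lt_mul_of_pos_right (hx _ (two_mul_ne hp h5 hc)) hβ
      _ = v B := one_mul _
  rw [h3] at h4
  exact lt_irrefl _ h4

lemma t2x0 (hv : Res0 v) (hp : p.Prime) (h5 : 5 ≤ p) (t : Tor p A B x) (hA : v A = 1)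
    (hB0 : B ≠ 0) (hB : v B < 1) (hx : ∀ c, c ≠ 0 → v (x c) < 1) {c : ZMod p} (hc : c ≠ 0) :
    0 < v (x c) := by
  have h := t2a hv hp h5 t hA hB0 hB hx hc
  have : v (x c) ≠ 0 := by
    intro h0
    rw [h0, zero_pow (by norm_num)] at h
    exact not_lt_zero h
  exact zero_lt_iff.mpr this

lemma t2f (hv : Res0 v) (hp : p.Prime) (h5 : 5 ≤ p) (t : Tor p A B x) (hA : v A = 1)
    (hB0 : B ≠ 0) (hB : v B < 1) (hx : ∀ c, c ≠ 0 → v (x c) < 1) {c : ZMod p} (hc : c ≠ 0) :
    v (ff A B (x c)) = v (x c) ^ 2 := by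
  have h := t2a hv hp h5 t hA hB0 hB hx hc
  have h0 := t2x0 hv hp h5 t hA hB0 hB hx hc
  have h1 := hx c hc
  have e : ff A B (x c) = A * x c ^ 2 + (x c ^ 3 + B) := by unfold ff; ring
  have e2 : v (A * x c ^ 2) = v (x c) ^ 2 := by rw [map_mul, hA, one_mul, map_pow]
  rw [e, Valuation.map_add_eq_of_lt_left, e2]
  rw [e2]
  refine lt_of_le_of_lt (v.map_add _ _) (max_lt ?_ h)
  rw [map_pow, pow_succ]
  calc v (x c) ^ 2 * v (x c) < v (x c) ^ 2 * 1 := mul_lt_mul_of_pos_left h1 (pow_pos h0 2)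
    _ = v (x c) ^ 2 := mul_one _

/-- the doubling in the second type, part (b) -/
lemma t2b (hv : Res0 v) (hp : p.Prime) (h5 : 5 ≤ p) (t : Tor p A B x) (hA : v A = 1)
    (hB0 : B ≠ 0) (hB : v B < 1) (hx : ∀ c, c ≠ 0 → v (x c) < 1) {c : ZMod p} (hc : c ≠ 0) :
    (v B < v (x c) ^ 4 ∧ v (x (2 * c)) = v (x c) ^ 2) ∨
    (v (x c) ^ 4 < v B ∧ v (x (2 * c)) * v (x c) ^ 2 = v B) := by
  have h := t2a hv hp h5 t hA hB0 hB hx hc
  have h0 := t2x0 hv hp h5 t hA hB0 hB hx hc
  have h1 := hx c hc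
  have hβ : 0 < v B := zero_lt_iff.mpr ((v.ne_zero_iff).mpr hB0)
  have h3 := congrArg v (t.dbl c hc)
  rw [map_mul, map_mul, hv.four, one_mul, t2f hv hp h5 t hA hB0 hB hx hc] at h3
  have e1 : v (8 * B * x c) < v B := by
    rw [map_mul, map_mul, hv.eight, one_mul]
    calc v B * v (x c) < v B * 1 := mul_lt_mul_of_pos_left h1 hβ
      _ = v B := mul_one _
  have e2 : v (4 * A * B) = v B := by rw [map_mul, map_mul, hv.four, hA, one_mul, one_mul]
  have e3 : v (8 * B * x c + 4 * A * B) = v B := by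
    rw [Valuation.map_add_eq_of_lt_right _ (by rw [e2]; exact e1), e2]
  have e4 : x c ^ 4 - 8 * B * x c - 4 * A * B = x c ^ 4 + -(8 * B * x c + 4 * A * B) := by ring
  rw [e4] at h3
  rcases lt_trichotomy (v B) (v (x c) ^ 4) with h4 | h4 | h4
  · left
    refine ⟨h4, ?_⟩
    rw [Valuation.map_add_eq_of_lt_left, map_pow] at h3
    · have e5 : v (x c) ^ 4 = v (x c) ^ 2 * v (x c) ^ 2 := by rw [← pow_add]
      rw [e5] at h3
      exact mul_right_cancel₀ (pow_ne_zero 2 h0.ne') h3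
    · rw [Valuation.map_neg, e3, map_pow]; exact h4
  · exfalso
    have h5' : v (x (2 * c)) * v (x c) ^ 2 ≤ v (x c) ^ 2 * v (x c) ^ 2 := by
      rw [h3]
      refine (v.map_add _ _).trans (max_le ?_ ?_)
      · rw [map_pow, ← pow_add]
      · rw [Valuation.map_neg, e3, h4, ← pow_add]
    have h6 : v (x (2 * c)) ≤ v (x c) ^ 2 := le_of_mul_le_mul_right h5' (pow_pos h0 2)
    have h7 := t2a hv hp h5 t hA hB0 hB hx (two_mul_ne hp h5 hc)
    have h8 : v (x (2 * c)) ^ 2 ≤ v (x c) ^ 4 := by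
      calc v (x (2 * c)) ^ 2 ≤ (v (x c) ^ 2) ^ 2 := pow_le_pow_left' h6 2
        _ = v (x c) ^ 4 := by rw [← pow_mul]
    rw [← h4] at h8
    exact absurd h7 (not_lt.mpr h8)
  · right
    refine ⟨h4, ?_⟩
    rw [Valuation.map_add_eq_of_lt_right, Valuation.map_neg, e3] at h3
    · exact h3
    · rw [Valuation.map_neg, e3, map_pow]; exact h4

lemma add_ne_of {b c : ZMod p} (h : b ≠ -c) : b + c ≠ 0 := fun e => h (eq_neg_of_add_eq_zero_left e)

/-- the differences in the second type, part (c) -/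
lemma t2c (hv : Res0 v) (hp : p.Prime) (h5 : 5 ≤ p) (t : Tor p A B x) (hA : v A = 1)
    (hB0 : B ≠ 0) (hB : v B < 1) (hx : ∀ c, c ≠ 0 → v (x c) < 1) {b c : ZMod p} (hb : b ≠ 0)
    (hc : c ≠ 0) (hbc : b ≠ c) (hbc' : b ≠ -c) :
    v (x b - x c) = max (v (x b)) (v (x c)) := by
  rcases lt_trichotomy (v (x b)) (v (x c)) with h | h | h
  · rw [Valuation.map_sub_eq_of_lt_right _ h, max_eq_right h.le]
  · by_contra hne
    have hle : v (x b - x c) ≤ v (x b) := by
      refine (v.map_sub _ _).trans ?_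
      rw [h, max_self]
    rw [h, max_self, ← h] at hne
    have hlt : v (x b - x c) < v (x b) := lt_of_le_of_ne hle hne
    have hb0 := t2x0 hv hp h5 t hA hB0 hB hx hb
    have hb1 := hx b hb
    have h1 := congrArg v (t.sum b c hb hc hbc hbc')
    have e1 : v (2 * x b * x c * (x b + x c + 2 * A) + 4 * B) = v (x b) ^ 2 := by
      have e2 : v (x b + x c + 2 * A) = 1 := by
        rw [Valuation.map_add_eq_of_lt_right, map_mul, hv.two, hA, one_mul]
        rw [map_mul, hv.two, hA, one_mul]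
        exact lt_of_le_of_lt (v.map_add _ _) (max_lt hb1 (hx c hc))
      have e3 : v (2 * x b * x c * (x b + x c + 2 * A)) = v (x b) ^ 2 := by
        rw [map_mul, e2, map_mul, map_mul, hv.two, one_mul, mul_one, ← h, sq]
      rw [Valuation.map_add_eq_of_lt_left, e3]
      rw [e3, map_mul, hv.four, one_mul]
      exact t2a hv hp h5 t hA hB0 hB hx hb
    rw [e1, map_mul, map_pow] at h1
    have h2 : v (x (b + c) + x (b - c)) ≤ 1 :=
      (v.map_add _ _).trans (max_le (hx _ (add_ne_of hbc')).le (hx _ (sub_ne_zero.mpr hbc)).le)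
    have h3 : v (x (b + c) + x (b - c)) * v (x b - x c) ^ 2 < v (x b) ^ 2 := by
      calc v (x (b + c) + x (b - c)) * v (x b - x c) ^ 2 ≤ 1 * v (x b - x c) ^ 2 :=
            mul_le_mul_left h2 _
        _ = v (x b - x c) ^ 2 := one_mul _
        _ < v (x b) ^ 2 := pow_lt_pow_left₀ hlt zero_le (by norm_num)
    rw [h1] at h3
    exact lt_irrefl _ h3
  · rw [Valuation.map_sub_eq_of_lt_left _ h, max_eq_left h.le]

/-- the pair identity -/
lemma pair_id (t : Tor p A B x) {b c : ZMod p} (hb : b ≠ 0)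
    (hc : c ≠ 0) (hbc : b ≠ c) (hbc' : b ≠ -c) :
    16 * ((x (2 * b) - x (2 * c)) * (ff A B (x b) * ff A B (x c))) ^ 2 =
      ff A B (x (b + c)) * ff A B (x (b - c)) * (x b - x c) ^ 8 := by
  have d1 := t.dbl b hb
  have d2 := t.dbl c hc
  have s := t.sum b c hb hc hbc hbc'
  have q := t.prod b c hb hc hbc hbc'
  have hne : x b - x c ≠ 0 := sub_ne_zero.mpr (t.ne b c hb hc hbc hbc')
  generalize x (b + c) = u at *
  generalize x (b - c) = w at *
  generalize x (2 * b) = X2 at *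
  generalize x (2 * c) = Y2 at *
  generalize x b = X at *
  generalize x c = Y at *
  have e1 : 16 * ((X2 - Y2) * (ff A B X * ff A B Y)) ^ 2 =
      ((X2 * (4 * ff A B X)) * ff A B Y - (Y2 * (4 * ff A B Y)) * ff A B X) ^ 2 := by ring
  rw [e1, d1, d2]
  set S := 2 * X * Y * (X + Y + 2 * A) + 4 * B with hS
  set Q := (X * Y) ^ 2 - 4 * B * (X + Y) - 4 * A * B with hQ
  set D := (X - Y) ^ 2 with hD
  have e2 : ff A B u * ff A B w * (X - Y) ^ 8 =
      D * ((u * w * D) ^ 3 + A * (u * w * D) ^ 2 * ((u + w) * D) + A ^ 2 * (u * w * D) ^ 2 * D +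
        B * (((u + w) * D) ^ 3 - 3 * (u * w * D) * ((u + w) * D) * D) +
        A * B * (((u + w) * D) ^ 2 - 2 * (u * w * D) * D) * D + B ^ 2 * D ^ 3) := by
    rw [hD]
    unfold ff
    ring
  rw [e2, q, s, hS, hQ, hD]
  unfold ff
  ring

end Pool.Agent.TJ
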