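import Pool.Agent.Lib_helper40.TJ.V2

/-!
# Valuations of the abscissae of the multiples of a point of prime order: the invariant
-/

set_option autoImplicit false

namespace Pool.Agent.TJ

variable {K : Type*} [Field K] {G : Type*} [LinearOrderedCommGroupWithZero G] {v : Valuation K G}
  {p : ℕ} {A B : K} {x : ZMod p → K}

/-- all residues except `0` and `±b` -/
def Sb [NeZero p] (b : ZMod p) : Finset (ZMod p) := ((Finset.univ.erase 0).erase b).erase (-b)

lemma mem_Sb [NeZero p] {b c : ZMod p} : c ∈ Sb b ↔ c ≠ -b ∧ c ≠ b ∧ c ≠ 0 := by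
  unfold Sb
  simp

lemma neg_ne (hp : p.Prime) (h5 : 5 ≤ p) {b : ZMod p} (hb : b ≠ 0) : -b ≠ b := by
  intro h
  have := two_mul_ne hp h5 hb
  apply this
  rw [two_mul]
  nth_rewrite 1 [← h]
  rw [neg_add_cancel]

lemma prod_split [NeZero p] (hp : p.Prime) (h5 : 5 ≤ p) {M : Type*} [CommMonoid M]
    (F : ZMod p → M) {b : ZMod p} (hb : b ≠ 0) :
    ∏ c, F c = F 0 * (F b * (F (-b) * ∏ c ∈ Sb b, F c)) := by
  unfold Sb
  rw [Finset.mul_prod_erase, Finset.mul_prod_erase, Finset.mul_prod_erase]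
  · exact Finset.mem_univ _
  · exact Finset.mem_erase.mpr ⟨hb, Finset.mem_univ _⟩
  · exact Finset.mem_erase.mpr ⟨neg_ne hp h5 hb, Finset.mem_erase.mpr
      ⟨neg_ne_zero.mpr hb, Finset.mem_univ _⟩⟩

lemma card_Sb [NeZero p] (hp : p.Prime) (h5 : 5 ≤ p) {b : ZMod p} (hb : b ≠ 0) :
    (Sb b).card + 3 = p := by
  unfold Sb
  have e1 : b ∈ (Finset.univ : Finset (ZMod p)).erase 0 :=
    Finset.mem_erase.mpr ⟨hb, Finset.mem_univ _⟩
  have e2 : -b ∈ ((Finset.univ : Finset (ZMod p)).erase 0).erase b :=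
    Finset.mem_erase.mpr ⟨neg_ne hp h5 hb, Finset.mem_erase.mpr
      ⟨neg_ne_zero.mpr hb, Finset.mem_univ _⟩⟩
  rw [Finset.card_erase_of_mem e2, Finset.card_erase_of_mem e1,
    Finset.card_erase_of_mem (Finset.mem_univ _), Finset.card_univ, ZMod.card]
  omega

/-- **the second type**: the invariant has a pole -/
theorem type2 [NeZero p] (hv : Res0 v) (hp : p.Prime) (h5 : 5 ≤ p) (t : Tor p A B x)
    (hA : v A = 1) (hB0 : B ≠ 0) (hB : v B < 1) (hx : ∀ c, c ≠ 0 → v (x c) < 1) :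
    1 < v (DD A B x) := by
  have hpf := Fact.mk hp
  have hβ : 0 < v B := zero_lt_iff.mpr ((v.ne_zero_iff).mpr hB0)
  have hpos : ∀ c, c ≠ 0 → 0 < v (x c) := fun c hc => t2x0 hv hp h5 t hA hB0 hB hx hc
  have hne : (Finset.univ.erase (0 : ZMod p)).Nonempty :=
    ⟨1, Finset.mem_erase.mpr ⟨one_ne_zero, Finset.mem_univ _⟩⟩
  obtain ⟨b, hbm, hmin⟩ := Finset.exists_min_image _ (fun c => v (x c)) hne
  have hb : b ≠ 0 := (Finset.mem_erase.mp hbm).1
  have hmin : ∀ c, c ≠ 0 → v (x b) ≤ v (x c) := fun c hc =>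
    hmin c (Finset.mem_erase.mpr ⟨hc, Finset.mem_univ _⟩)
  have hsq : ∀ c, c ≠ 0 → v (x c) ^ 2 < v (x c) := by
    intro c hc
    rw [sq]
    calc v (x c) * v (x c) < v (x c) * 1 := mul_lt_mul_of_pos_left (hx c hc) (hpos c hc)
      _ = v (x c) := mul_one _
  have h2b : v (x (2 * b)) * v (x b) ^ 2 = v B := by
    rcases t2b hv hp h5 t hA hB0 hB hx hb with ⟨-, h⟩ | ⟨-, h⟩
    · exfalso
      have := hmin _ (two_mul_ne hp h5 hb)
      rw [h] at this
      exact absurd (hsq b hb) (not_lt.mpr this)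
    · exact h
  have hmax : ∀ c, c ≠ 0 → v (x c) ≤ v (x (2 * b)) := by
    obtain ⟨e, hem, hemax⟩ := Finset.exists_max_image _ (fun c => v (x c)) hne
    have he : e ≠ 0 := (Finset.mem_erase.mp hem).1
    have h2 : (2 : ZMod p) ≠ 0 := by
      have := two_mul_ne hp h5 (c := 1) one_ne_zero
      rwa [mul_one] at this
    obtain ⟨e', he'⟩ : ∃ e', e = 2 * e' := ⟨2⁻¹ * e, by rw [mul_inv_cancel_left₀ h2]⟩
    have he0 : e' ≠ 0 := by
      rintro rfl
      exact he (by rw [he', mul_zero])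
    have h3 : v (x e) ≤ v (x (2 * b)) := by
      rcases t2b hv hp h5 t hA hB0 hB hx he0 with ⟨-, h⟩ | ⟨-, h⟩
      · exfalso
        rw [← he'] at h
        have := hemax e' (Finset.mem_erase.mpr ⟨he0, Finset.mem_univ _⟩)
        rw [h] at this
        exact absurd (hsq e' he0) (not_lt.mpr this)
      · rw [← he', ← h2b] at h
        have h4 : v (x e) * v (x e') ^ 2 ≤ v (x (2 * b)) * v (x e') ^ 2 := by
          rw [h]
          exact mul_le_mul_right (pow_le_pow_left' (hmin e' he0) 2) _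
        exact le_of_mul_le_mul_right h4 (pow_pos (hpos e' he0) 2)
    intro c hc
    exact (hemax c (Finset.mem_erase.mpr ⟨hc, Finset.mem_univ _⟩)).trans h3
  -- the pair identity
  have hpair : ∀ c ∈ Sb b, v (x (b + c)) * v (x (b - c)) * v (x c) ^ 2 = v B := by
    intro c hcm
    obtain ⟨c1, c2, hc⟩ := mem_Sb.mp hcm
    have hbc : b ≠ c := fun e => c2 e.symm
    have hbc' : b ≠ -c := fun e => c1 (by rw [e, neg_neg])
    have f1 : 2 * b ≠ 2 * c := fun e => two_mul_ne hp h5 (sub_ne_zero.mpr hbc)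
      (by rw [mul_sub, e, sub_self])
    have f2 : 2 * b ≠ -(2 * c) := fun e => two_mul_ne hp h5 (add_ne_of hbc')
      (by rw [mul_add, e, neg_add_cancel])
    have g1 := t2c hv hp h5 t hA hB0 hB hx (two_mul_ne hp h5 hb) (two_mul_ne hp h5 hc) f1 f2
    rw [max_eq_left (hmax _ (two_mul_ne hp h5 hc))] at g1
    have g2 := t2c hv hp h5 t hA hB0 hB hx hb hc hbc hbc'
    rw [max_eq_right (hmin c hc)] at g2
    have h := congrArg v (pair_id t hb hc hbc hbc')
    have h16 : v (16 : K) = 1 := by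
      have := hv 16 (by norm_num)
      push_cast at this
      exact this
    rw [map_mul, h16, one_mul, map_pow, map_mul, map_mul, map_mul, map_mul, map_pow, g1, g2,
      t2f hv hp h5 t hA hB0 hB hx hb, t2f hv hp h5 t hA hB0 hB hx hc,
      t2f hv hp h5 t hA hB0 hB hx (add_ne_of hbc'),
      t2f hv hp h5 t hA hB0 hB hx (sub_ne_zero.mpr hbc)] at h
    have h' : (v (x (2 * b)) * (v (x b) ^ 2 * v (x c) ^ 2)) ^ 2 =
        (v (x (b + c)) * v (x (b - c)) * v (x c) ^ 2 * v (x c) ^ 2) ^ 2 := by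
      rw [h]
      have : v (x c) ^ 8 = (v (x c) ^ 2 * v (x c) ^ 2) ^ 2 := by rw [← pow_add, ← pow_mul]
      rw [this, mul_assoc (v (x (b + c)) * v (x (b - c))), mul_pow (v (x (b + c)) * v (x (b - c))),
        mul_pow (v (x (b + c)))]
    have h3 := (pow_left_inj₀ zero_le zero_le two_ne_zero).mp h'
    rw [← mul_assoc, h2b] at h3
    exact (mul_right_cancel₀ (pow_ne_zero 2 (hpos c hc).ne') h3).symm
  -- the products
  obtain ⟨g, hg⟩ : ∃ g : ZMod p → G, ∀ c, g c = if c = 0 then 1 else v (x c) := ⟨_, fun _ => rfl⟩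
  have hg0 : g 0 = 1 := by rw [hg, if_pos rfl]
  have hg1 : ∀ c, c ≠ 0 → g c = v (x c) := fun c hc => by rw [hg, if_neg hc]
  have heven : v (x (-b)) = v (x b) := by rw [t.even]
  have hev2 : v (x (b - -b)) = v (x (2 * b)) := by rw [sub_neg_eq_add, two_mul]
  have p1 : ∏ c, g c = v (x b) ^ 2 * ∏ c ∈ Sb b, g c := by
    rw [prod_split hp h5 g hb, hg0, hg1 b hb, hg1 (-b) (neg_ne_zero.mpr hb), heven, one_mul, sq,
      mul_assoc]
  have p2 : ∏ c, g c = v (x b) * v (x (2 * b)) * ∏ c ∈ Sb b, g (b + c) := by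
    rw [← Equiv.prod_comp (Equiv.addLeft b) g]
    rw [prod_split hp h5 (fun c => g ((Equiv.addLeft b) c)) hb]
    simp only [Equiv.coe_addLeft, add_zero, add_neg_cancel]
    rw [hg0, hg1 b hb, ← two_mul, hg1 (2 * b) (two_mul_ne hp h5 hb), one_mul, mul_assoc]
  have p3 : ∏ c, g c = v (x b) * v (x (2 * b)) * ∏ c ∈ Sb b, g (b - c) := by
    rw [← Equiv.prod_comp (Equiv.subLeft b) g]
    rw [prod_split hp h5 (fun c => g ((Equiv.subLeft b) c)) hb]
    simp only [Equiv.subLeft_apply, sub_zero, sub_self, sub_neg_eq_add]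
    rw [hg0, hg1 b hb, ← two_mul, hg1 (2 * b) (two_mul_ne hp h5 hb), one_mul, mul_assoc]
  have p4 : (∏ c ∈ Sb b, g (b + c)) * (∏ c ∈ Sb b, g (b - c)) * (∏ c ∈ Sb b, g c) ^ 2 =
      v B ^ (Sb b).card := by
    rw [← Finset.prod_pow, ← Finset.prod_mul_distrib, ← Finset.prod_mul_distrib,
      ← Finset.prod_const]
    refine Finset.prod_congr rfl fun c hcm => ?_
    obtain ⟨c1, c2, hc⟩ := mem_Sb.mp hcm
    have hbc : b ≠ c := fun e => c2 e.symm
    have hbc' : b ≠ -c := fun e => c1 (by rw [e, neg_neg])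
    rw [hg1 _ (add_ne_of hbc'), hg1 _ (sub_ne_zero.mpr hbc), hg1 c hc]
    exact hpair c hcm
  have hcard := card_Sb hp h5 hb
  have p5 : (∏ c, g c) ^ 4 = v B ^ (p - 1) * v (x b) ^ 2 := by
    have e1 : (∏ c, g c) ^ 4 = (v (x b) * v (x (2 * b)) * ∏ c ∈ Sb b, g (b + c)) *
        (v (x b) * v (x (2 * b)) * ∏ c ∈ Sb b, g (b - c)) *
        (v (x b) ^ 2 * ∏ c ∈ Sb b, g c) ^ 2 := by
      rw [← p1, ← p2, ← p3, ← sq, ← pow_add]
    have e2 : (v (x b) * v (x (2 * b)) * ∏ c ∈ Sb b, g (b + c)) *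
        (v (x b) * v (x (2 * b)) * ∏ c ∈ Sb b, g (b - c)) *
        (v (x b) ^ 2 * ∏ c ∈ Sb b, g c) ^ 2 =
        ((v (x (2 * b)) * v (x b) ^ 2) ^ 2 * v (x b) ^ 2) *
        ((∏ c ∈ Sb b, g (b + c)) * (∏ c ∈ Sb b, g (b - c)) * (∏ c ∈ Sb b, g c) ^ 2) := by
      generalize (∏ c ∈ Sb b, g (b + c)) = R
      generalize (∏ c ∈ Sb b, g (b - c)) = R'
      generalize (∏ c ∈ Sb b, g c) = Q
      generalize v (x b) = m
      generalize v (x (2 * b)) = n
      simp only [mul_pow, ← pow_mul]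
      have : ∀ m n R R' Q : G, m * n * R * (m * n * R') * (m ^ (2 * 2) * Q ^ 2) =
        n ^ 2 * m ^ (2 * 2) * m ^ 2 * (R * R' * Q ^ 2) := by
        intro m n R R' Q
        have : m * n * R * (m * n * R') = (m ^ 2 * n ^ 2) * (R * R') := by
          rw [sq, sq]
          ac_rfl
        rw [this]
        ac_rfl
      exact this m n R R' Q
    rw [e1, e2, p4, h2b]
    have e3 : p - 1 = (Sb b).card + 2 := by omega
    rw [e3, pow_add]
    ac_rfl
  have p6 : ∏ c : ZMod p, v (if c = 0 then 1 else ff A B (x c) ^ 2) = (∏ c, g c) ^ 4 := by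
    rw [← Finset.prod_pow]
    refine Finset.prod_congr rfl fun c _ => ?_
    rw [hg]
    split_ifs with hc
    · rw [map_one, one_pow]
    · rw [map_pow, t2f hv hp h5 t hA hB0 hB hx hc, ← pow_mul]
  have hU : v (4 * A ^ 3 + 27 * B) = 1 := by
    have e : v (4 * A ^ 3) = 1 := by rw [map_mul, hv.four, map_pow, hA, one_pow, one_mul]
    rw [Valuation.map_add_eq_of_lt_left, e]
    rw [e, map_mul, hv.tw7, one_mul]
    exact hB
  have hPi : ∏ c, g c ≠ 0 := by
    rw [Finset.prod_ne_zero_iff]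
    intro c _
    rw [hg]
    split_ifs with hc
    · exact one_ne_zero
    · exact (hpos c hc).ne'
  have key : v (DD A B x) * v (x b) ^ 2 = 1 := by
    unfold DD
    rw [map_div₀, map_pow, map_mul, hU, mul_one, map_prod, p6, p5, div_mul_eq_mul_div,
      div_self]
    rw [← p5]
    exact pow_ne_zero _ hPi
  by_contra hcon
  push Not at hcon
  have : v (DD A B x) * v (x b) ^ 2 < 1 := by
    calc v (DD A B x) * v (x b) ^ 2 ≤ 1 * v (x b) ^ 2 := mul_le_mul_left hcon _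
      _ = v (x b) ^ 2 := one_mul _
      _ < 1 := pow_lt_one₀ zero_le (hx b hb) (by norm_num)
  rw [key] at this
  exact lt_irrefl _ this

end Pool.Agent.TJ
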