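import Pool.Agent.Lib_helper40.TJ.V4

/-!
# The place
-/

set_option autoImplicit false

namespace Pool.Agent.TJ

open Polynomial

/-- the two types at a place where `B` vanishes -/
def TwoTypes (p : ℕ) (K : Type*) [Field K] : Prop :=
  ∀ (O : ValuationSubring K) (B : K) (x : ZMod p → K), Res0 O.valuation → Tor p 1 B x →
    B ≠ 0 → O.valuation B < 1 →
    (∀ c, c ≠ 0 → O.valuation (x c) < 1) ∨
    (∀ c, c ≠ 0 → O.valuation (x c) = 1 ∧ O.valuation (ff 1 B (x c)) = 1)

variable {K : Type*} [Field K] {p : ℕ} [NeZero p]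

lemma v_prod_ff {O : ValuationSubring K} {A B : K} {x : ZMod p → K}
    (h : ∀ c, c ≠ 0 → O.valuation (ff A B (x c)) = 1) :
    O.valuation (DD A B x) = O.valuation (B * (4 * A ^ 3 + 27 * B)) ^ (p - 1) := by
  unfold DD
  rw [map_div₀, map_pow, map_prod, Finset.prod_eq_one, div_one]
  intro c _
  split_ifs with hc
  · exact map_one _
  · rw [map_pow, h c hc, one_pow]

/-- at a place where `B` vanishes -/
lemma at_zero (hT : TwoTypes p K) (hp : p.Prime) (h5 : 5 ≤ p) {O : ValuationSubring K}
    (hv : Res0 O.valuation) {B : K} {x : ZMod p → K} (t : Tor p 1 B x) (hB0 : B ≠ 0)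
    (hB : O.valuation B < 1) :
    1 < O.valuation (DD 1 B x) ∨
    (O.valuation (DD 1 B x) < 1 ∧
      ∀ c, c ≠ 0 → O.valuation (x c) = 1 ∧ O.valuation (ff 1 B (x c)) = 1) := by
  rcases hT O B x hv t hB0 hB with h | h
  · exact Or.inl (type2 hv hp h5 t (map_one _) hB0 hB h)
  · right
    refine ⟨?_, h⟩
    rw [v_prod_ff fun c hc => (h c hc).2]
    have e : O.valuation (4 * 1 ^ 3 + 27 * B) = 1 := by
      have e1 : O.valuation (4 * 1 ^ 3 : K) = 1 := by rw [one_pow, mul_one, hv.four]
      rw [Valuation.map_add_eq_of_lt_left, e1]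
      rw [e1, map_mul, hv.tw7, one_mul]
      exact hB
    rw [map_mul, e, mul_one]
    exact pow_lt_one₀ zero_le hB (by have := hp.two_le; omega)

variable [CharZero K]

/-- the invariant is transcendental -/
lemma DD_trans (hT : TwoTypes p K) (hp : p.Prime) (h5 : 5 ≤ p) {B : K} {x : ZMod p → K}
    (hB : Transcendental ℚ B) (t : Tor p 1 B x) : Transcendental ℚ (DD 1 B x) := by
  intro hD
  have hB0 : B ≠ 0 := by
    rintro rfl
    exact hB isAlgebraic_zero
  have hB1 : (4 * 1 ^ 3 + 27 * B : K) ≠ 0 := by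
    intro h
    apply hB
    have : B = algebraMap ℚ K (-4 / 27) := by
      rw [eq_ratCast]
      push_cast
      linear_combination h / 27
    rw [this]
    exact isAlgebraic_algebraMap _
  have hD0 : DD 1 B x ≠ 0 := by
    unfold DD
    refine div_ne_zero (pow_ne_zero _ (mul_ne_zero hB0 hB1)) ?_
    rw [Finset.prod_ne_zero_iff]
    intro c _
    split_ifs with hc
    · exact one_ne_zero
    · exact pow_ne_zero 2 (t.ne0 c hc)
  obtain ⟨O, hv, hB'⟩ := exists_place hB
  have h1 := alg_unit hv hD hD0
  rcases at_zero hT hp h5 hv t hB0 hB' with h | ⟨h, -⟩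
  · rw [h1] at h
    exact lt_irrefl _ h
  · rw [h1] at h
    exact lt_irrefl _ h

/-- **the place**: multiplicative reduction of the first type -/
theorem place [IsAlgClosed K] (hT : TwoTypes p K) (hp : p.Prime) (h5 : 5 ≤ p) {B : K}
    {x : ZMod p → K} (hB : Transcendental ℚ B) (t : Tor p 1 B x) :
    ∃ (O : ValuationSubring K) (B' : K) (x' : ZMod p → K) (s : K), Res0 O.valuation ∧ s ≠ 0 ∧
      Tor p 1 B' x' ∧ B' ≠ 0 ∧ O.valuation B' < 1 ∧
      (∀ c, c ≠ 0 → O.valuation (x' c) = 1 ∧ O.valuation (ff 1 B' (x' c)) = 1) ∧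
      ∀ c, c ≠ 0 → gax 1 B' x' c = s * gax 1 B x c := by
  have hB0 : B ≠ 0 := by
    rintro rfl
    exact hB isAlgebraic_zero
  obtain ⟨O, hv, hD⟩ := exists_place (DD_trans hT hp h5 hB t)
  have hlt : ¬ (O.valuation (DD 1 B x) = 1) := fun h => by rw [h] at hD; exact lt_irrefl _ hD
  rcases lt_or_ge 1 (O.valuation B) with hB1 | hB1
  · -- good reduction after scaling
    exfalso
    obtain ⟨w, hw⟩ := IsAlgClosed.exists_pow_nat_eq (B⁻¹) (n := 3) (by norm_num)
    have hw0 : w ≠ 0 := by
      rintro rfl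
      rw [zero_pow (by norm_num)] at hw
      exact inv_ne_zero hB0 hw.symm
    have hw1 : O.valuation w < 1 := by
      by_contra hcon
      push Not at hcon
      have h1 := one_le_pow₀ hcon (n := 3)
      rw [← map_pow, hw, map_inv₀] at h1
      have h2 := (one_le_inv₀ (lt_trans zero_lt_one hB1)).mp h1
      exact absurd hB1 (not_lt.mpr h2)
    have e1 : w ^ 3 * B = 1 := by rw [hw, inv_mul_cancel₀ hB0]
    have t' := t.scale hw0
    have e2 := DD_scale hw0 1 B x
    rw [e1, mul_one] at t' e2
    have hU : O.valuation (1 * (4 * w ^ 3 + 27 * 1)) = 1 := by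
      rw [one_mul, mul_one, Valuation.map_add_eq_of_lt_right, hv.tw7]
      rw [hv.tw7, map_mul, hv.four, one_mul, map_pow]
      exact pow_lt_one₀ zero_le hw1 (by norm_num)
    have hg := fun c hc => good hv hp h5 t' hw1.le (map_one _).le hU (c := c) hc
    have h3 := v_prod_ff (O := O) hg
    rw [hU, one_pow, e2] at h3
    exact hlt h3
  · by_cases hU : O.valuation (B * (4 * 1 ^ 3 + 27 * B)) = 1
    · exfalso
      have hg := fun c hc => good hv hp h5 t (map_one _).le hB1 hU (c := c) hc
      have h3 := v_prod_ff (O := O) hg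
      rw [hU, one_pow] at h3
      exact hlt h3
    · rcases lt_or_eq_of_le hB1 with hB2 | hB2
      · rcases at_zero hT hp h5 hv t hB0 hB2 with h | ⟨-, h⟩
        · exact absurd hD (not_lt.mpr h.le)
        · exact ⟨O, B, x, 1, hv, one_ne_zero, t, hB0, hB2, h, fun c _ => (one_mul _).symm⟩
      · rw [map_mul, hB2, one_mul] at hU
        have hU1 : O.valuation (4 * 1 ^ 3 + 27 * B) < 1 := by
          refine lt_of_le_of_ne ?_ hU
          refine v_int_add ?_ (v_int_mul hv.tw7.le hB2.le)
          rw [one_pow, mul_one]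
          exact hv.four.le
        have e3 : (3 * (1 / 3) : K) = 1 := by norm_num
        have t1 : Tor p (3 * (1 / 3)) B x := by rw [e3]; exact t
        have t2 := t1.flip
        have e4 := DD_flip (1 / 3) B x
        have e5 := fun c hc => gax_flip hp h5 (1 / 3) B x (c := c) hc
        rw [e3] at t2 e4 e5
        have hB3 : O.valuation (-(B + 4 * (1 / 3) ^ 3)) < 1 := by
          have e6 : (-(B + 4 * (1 / 3) ^ 3) : K) * 27 = -(4 * 1 ^ 3 + 27 * B) := by ring
          have e7 := congrArg O.valuation e6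
          rw [map_mul, hv.tw7, mul_one, Valuation.map_neg, Valuation.map_neg] at e7
          rw [Valuation.map_neg, e7]
          exact hU1
        have hB4 : (-(B + 4 * (1 / 3) ^ 3) : K) ≠ 0 := by
          intro h
          apply hB
          have : B = algebraMap ℚ K (-4 / 27) := by
            rw [eq_ratCast]
            push_cast
            linear_combination -h
          rw [this]
          exact isAlgebraic_algebraMap _
        rcases at_zero hT hp h5 hv t2 hB4 hB3 with h | ⟨-, h⟩
        · rw [e4] at h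
          exact absurd hD (not_lt.mpr h.le)
        · exact ⟨O, _, _, -1, hv, by norm_num, t2, hB4, hB3, h, fun c hc => e5 c hc⟩

end Pool.Agent.TJ
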