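import Pool.Agent.Lib_helper40.TJ.V4

/-!
# First order calculus at a place, the recursion along the doubling
-/

set_option autoImplicit false

namespace Pool.Agent.TJ

section rec

variable {K : Type*} [Field K] {G : Type*} [LinearOrderedCommGroupWithZero G] {v : Valuation K G}
  {p : ℕ}

/-- the recursion along the doubling -/
lemma rec_le (hv : Res0 v) (hp : p.Prime) (h5 : 5 ≤ p) {h : ZMod p → K} {γ : G}
    (H : ∀ c, c ≠ 0 → v (h (2 * c) - 2 * h c) ≤ γ) {c : ZMod p} (hc : c ≠ 0) : v (h c) ≤ γ := by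
  have key : ∀ r : ℕ, v (h (2 ^ r * c) - 2 ^ r * h c) ≤ γ := by
    intro r
    induction r with
    | zero => rw [pow_zero, one_mul, pow_zero, one_mul, sub_self, map_zero]; exact zero_le
    | succ n ih =>
      have e1 : 2 ^ (n + 1) * c = 2 * (2 ^ n * c) := by rw [pow_succ']; ring
      have e2 : h (2 * (2 ^ n * c)) - 2 ^ (n + 1) * h c =
          (h (2 * (2 ^ n * c)) - 2 * h (2 ^ n * c)) + 2 * (h (2 ^ n * c) - 2 ^ n * h c) := by
        rw [pow_succ]; ring
      rw [e1, e2]
      refine (v.map_add _ _).trans (max_le (H _ (pow_mul_ne hp h5 hc n)) ?_)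
      rw [map_mul, hv.two, one_mul]
      exact ih
  have := Fact.mk hp
  have h2 : (2 : ZMod p) ≠ 0 := by
    have := two_mul_ne hp h5 (c := 1) one_ne_zero
    rwa [mul_one] at this
  have h3 := key (p - 1)
  rw [ZMod.pow_card_sub_one_eq_one h2, one_mul] at h3
  have e : h c - (2 : K) ^ (p - 1) * h c = ((1 - 2 ^ (p - 1) : ℤ) : K) * h c := by
    push_cast
    ring
  have h6 : (1 - 2 ^ (p - 1) : ℤ) ≠ 0 := by
    have : (1 : ℤ) < 2 ^ (p - 1) := one_lt_pow₀ (by norm_num) (by omega)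
    omega
  rwa [e, map_mul, hv _ h6, one_mul] at h3

lemma rec_lt (hv : Res0 v) (hp : p.Prime) (h5 : 5 ≤ p) {h : ZMod p → K} {γ : G}
    (H : ∀ c, c ≠ 0 → v (h (2 * c) - 2 * h c) < γ) {c : ZMod p} (hc : c ≠ 0) : v (h c) < γ := by
  have hγ : 0 < γ := lt_of_le_of_lt zero_le (H c hc)
  have key : ∀ r : ℕ, v (h (2 ^ r * c) - 2 ^ r * h c) < γ := by
    intro r
    induction r with
    | zero => rw [pow_zero, one_mul, pow_zero, one_mul, sub_self, map_zero]; exact hγ
    | succ n ih =>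
      have e1 : 2 ^ (n + 1) * c = 2 * (2 ^ n * c) := by rw [pow_succ']; ring
      have e2 : h (2 * (2 ^ n * c)) - 2 ^ (n + 1) * h c =
          (h (2 * (2 ^ n * c)) - 2 * h (2 ^ n * c)) + 2 * (h (2 ^ n * c) - 2 ^ n * h c) := by
        rw [pow_succ]; ring
      rw [e1, e2]
      refine lt_of_le_of_lt (v.map_add _ _) (max_lt (H _ (pow_mul_ne hp h5 hc n)) ?_)
      rw [map_mul, hv.two, one_mul]
      exact ih
  have := Fact.mk hp
  have h2 : (2 : ZMod p) ≠ 0 := by
    have := two_mul_ne hp h5 (c := 1) one_ne_zero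
    rwa [mul_one] at this
  have h3 := key (p - 1)
  rw [ZMod.pow_card_sub_one_eq_one h2, one_mul] at h3
  have e : h c - (2 : K) ^ (p - 1) * h c = ((1 - 2 ^ (p - 1) : ℤ) : K) * h c := by
    push_cast
    ring
  have h6 : (1 - 2 ^ (p - 1) : ℤ) ≠ 0 := by
    have : (1 : ℤ) < 2 ^ (p - 1) := one_lt_pow₀ (by norm_num) (by omega)
    omega
  rwa [e, map_mul, hv _ h6, one_mul] at h3

end rec

section fst

variable {K : Type*} [Field K] {G : Type*} [LinearOrderedCommGroupWithZero G] {v : Valuation K G}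
  {B : K}

/-- `a = 1 + B α` to first order -/
def Fst (v : Valuation K G) (B a α : K) : Prop := v (a - 1 - B * α) < v B ∧ v α ≤ 1

lemma mul_self_lt {b : G} (hb : b < 1) (h0 : 0 < b) : b * b < b := by
  calc b * b < b * 1 := mul_lt_mul_of_pos_left hb h0
    _ = b := mul_one _

lemma Fst.sub_one {a α : K} (ha : Fst v B a α) : v (a - 1) ≤ v B := by
  have e : a - 1 = (a - 1 - B * α) + B * α := by ring
  rw [e]
  refine (v.map_add _ _).trans (max_le ha.1.le ?_)
  rw [map_mul]
  exact mul_le_of_le_one_right' ha.2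

lemma Fst.val (hB : v B < 1) {a α : K} (ha : Fst v B a α) : v a = 1 := by
  have e : a = (a - 1) + 1 := by ring
  rw [e, Valuation.map_add_eq_of_lt_right, map_one]
  rw [map_one]
  exact lt_of_le_of_lt ha.sub_one hB

lemma Fst.one (hB0 : B ≠ 0) : Fst v B 1 0 := by
  refine ⟨?_, ?_⟩
  · rw [mul_zero, sub_zero, sub_self, map_zero]
    exact zero_lt_iff.mpr ((v.ne_zero_iff).mpr hB0)
  · rw [map_zero]; exact zero_le

lemma Fst.mul (hB0 : B ≠ 0) (hB : v B < 1) {a α b β : K} (ha : Fst v B a α) (hb : Fst v B b β) :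
    Fst v B (a * b) (α + β) := by
  have hβ : 0 < v B := zero_lt_iff.mpr ((v.ne_zero_iff).mpr hB0)
  refine ⟨?_, (v.map_add _ _).trans (max_le ha.2 hb.2)⟩
  have e : a * b - 1 - B * (α + β) = (a - 1 - B * α) * b + ((1 + B * α) * (b - 1 - B * β) +
      B * B * (α * β)) := by ring
  rw [e]
  refine lt_of_le_of_lt (v.map_add _ _) (max_lt ?_ (lt_of_le_of_lt (v.map_add _ _)
    (max_lt ?_ ?_)))
  · rw [map_mul, hb.val hB, mul_one]
    exact ha.1
  · rw [map_mul]
    have : v (1 + B * α) ≤ 1 := by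
      refine (v.map_add _ _).trans (max_le (map_one v).le ?_)
      rw [map_mul]
      exact mul_le_one' hB.le ha.2
    exact lt_of_le_of_lt (mul_le_of_le_one_left' this) hb.1
  · rw [map_mul, map_mul, map_mul]
    exact lt_of_le_of_lt (mul_le_of_le_one_right' (mul_le_one' ha.2 hb.2)) (mul_self_lt hB hβ)

lemma Fst.inv (hB0 : B ≠ 0) (hB : v B < 1) {a α : K} (ha : Fst v B a α) :
    Fst v B a⁻¹ (-α) := by
  have hβ : 0 < v B := zero_lt_iff.mpr ((v.ne_zero_iff).mpr hB0)
  have h1 := ha.val hB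
  have ha0 : a ≠ 0 := by
    rintro rfl
    rw [map_zero] at h1
    exact zero_ne_one h1
  refine ⟨?_, by rw [Valuation.map_neg]; exact ha.2⟩
  have e : a⁻¹ - 1 - B * -α = a⁻¹ * (-(a - 1 - B * α) + B * (α * (a - 1))) := by
    field_simp
    ring
  rw [e, map_mul, map_inv₀, h1, inv_one, one_mul]
  refine lt_of_le_of_lt (v.map_add _ _) (max_lt ?_ ?_)
  · rw [Valuation.map_neg]; exact ha.1
  · rw [map_mul, map_mul]
    calc v B * (v α * v (a - 1)) ≤ v B * (1 * v B) :=
          mul_le_mul_right (mul_le_mul' ha.2 ha.sub_one) _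
      _ = v B * v B := by rw [one_mul]
      _ < v B := mul_self_lt hB hβ

lemma Fst.pow (hB0 : B ≠ 0) (hB : v B < 1) {a α : K} (ha : Fst v B a α) (n : ℕ) :
    Fst v B (a ^ n) (n * α) := by
  induction n with
  | zero => rw [pow_zero, Nat.cast_zero, zero_mul]; exact Fst.one hB0
  | succ n ih =>
    have := ih.mul hB0 hB ha
    rw [pow_succ]
    have e : ((n + 1 : ℕ) : K) * α = n * α + α := by push_cast; ring
    rw [e]
    exact this

lemma Fst.zpow (hB0 : B ≠ 0) (hB : v B < 1) {a α : K} (ha : Fst v B a α) (n : ℤ) :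
    Fst v B (a ^ n) (n * α) := by
  obtain ⟨m, rfl | rfl⟩ := Int.eq_nat_or_neg n
  · rw [zpow_natCast, Int.cast_natCast]
    exact ha.pow hB0 hB m
  · have := (ha.pow hB0 hB m).inv hB0 hB
    rw [zpow_neg, zpow_natCast]
    have e : ((-(m : ℤ) : ℤ) : K) * α = -(m * α) := by push_cast; ring
    rw [e]
    exact this

lemma Fst.prod (hB0 : B ≠ 0) (hB : v B < 1) {ι : Type*} (s : Finset ι) {a α : ι → K}
    (ha : ∀ i ∈ s, Fst v B (a i) (α i)) : Fst v B (∏ i ∈ s, a i) (∑ i ∈ s, α i) := by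
  classical
  induction s using Finset.induction_on with
  | empty => rw [Finset.prod_empty, Finset.sum_empty]; exact Fst.one hB0
  | insert i s hi ih =>
    rw [Finset.prod_insert hi, Finset.sum_insert hi]
    exact (ha i (Finset.mem_insert_self i s)).mul hB0 hB
      (ih fun j hj => ha j (Finset.mem_insert_of_mem hj))

/-- quotients -/
lemma Fst.of_diff {a a0 d : K} (h0 : v a0 = 1) (hd : v d ≤ 1)
    (h : v (a - a0 - B * d) < v B) : Fst v B (a / a0) (d / a0) := by
  have ha0 : a0 ≠ 0 := by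
    rintro rfl
    rw [map_zero] at h0
    exact zero_ne_one h0
  refine ⟨?_, ?_⟩
  · have e : a / a0 - 1 - B * (d / a0) = (a - a0 - B * d) / a0 := by
      field_simp
    rw [e, map_div₀, h0, div_one]
    exact h
  · rw [map_div₀, h0, div_one]
    exact hd

end fst

end Pool.Agent.TJ
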