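import Pool.Agent.Lib_helper40.TJ.V6

/-!
# The abscissae of the roots of unity on the nodal cubic
-/

set_option autoImplicit false
set_option linter.unusedSectionVars false

namespace Pool.Agent.TJ

variable {K : Type*} [Field K] {p : ℕ}

/-- the abscissa of `u` on the nodal cubic `y² = x³ + x²` -/
def Xu (u : K) : K := 4 * u / (u - 1) ^ 2

/-- the invariant derivative of `Xu` -/
def Tu (u : K) : K := -4 * u * (u + 1) / (u - 1) ^ 3

/-- the first order term -/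
noncomputable def xi (X : K) : K := -1 / (4 * X) + 5 / 8 + 15 * X / 8

section units

variable {z : K} (hz : IsPrimitiveRoot z p)

include hz

/-- the powers as an additive character -/
noncomputable def ps [NeZero p] (hz : IsPrimitiveRoot z p) : AddChar (ZMod p) K :=
  AddChar.zmodChar p hz.pow_eq_one

lemma ps_apply [NeZero p] (c : ZMod p) : ps hz c = z ^ c.val := AddChar.zmodChar_apply _ _

lemma ps_add [NeZero p] (a b : ZMod p) : ps hz (a + b) = ps hz a * ps hz b :=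
  AddChar.map_add_eq_mul _ _ _

lemma ps_ne0 [NeZero p] (c : ZMod p) : ps hz c ≠ 0 := by
  intro h
  have h1 := ps_add hz c (-c)
  rw [add_neg_cancel, h, zero_mul, AddChar.map_zero_eq_one] at h1
  exact one_ne_zero h1

lemma ps_neg [NeZero p] (c : ZMod p) : ps hz (-c) = (ps hz c)⁻¹ := by
  have h1 := ps_add hz c (-c)
  rw [add_neg_cancel, AddChar.map_zero_eq_one] at h1
  exact eq_inv_of_mul_eq_one_right h1.symm

lemma ps_two [NeZero p] (c : ZMod p) : ps hz (2 * c) = ps hz c ^ 2 := by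
  rw [two_mul, ps_add, sq]

lemma ps_eq_one [NeZero p] {c : ZMod p} (h : ps hz c = 1) : c = 0 := by
  rw [ps_apply, hz.pow_eq_one_iff_dvd] at h
  have h1 := ZMod.val_lt c
  have h2 : c.val = 0 := Nat.eq_zero_of_dvd_of_lt h h1
  exact (ZMod.val_eq_zero c).mp h2

lemma ps_inj [NeZero p] {b c : ZMod p} (h : ps hz b = ps hz c) : b = c := by
  have h1 : ps hz (b - c) = 1 := by
    rw [sub_eq_add_neg, ps_add, ps_neg, h, mul_inv_cancel₀ (ps_ne0 hz c)]
  exact sub_eq_zero.mp (ps_eq_one hz h1)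

lemma ps_neg_one [NeZero p] (hp : p.Prime) (h5 : 5 ≤ p) {c : ZMod p} (h : ps hz c = -1) :
    c = 0 := by
  have h1 : ps hz (2 * c) = 1 := by rw [ps_two, h]; norm_num
  have h2 := ps_eq_one hz h1
  by_contra hc
  exact two_mul_ne hp h5 hc h2

/-- the abscissae -/
noncomputable def Xc [NeZero p] (hz : IsPrimitiveRoot z p) (c : ZMod p) : K := Xu (ps hz c)

/-- the derivatives -/
noncomputable def Tc [NeZero p] (hz : IsPrimitiveRoot z p) (c : ZMod p) : K := Tu (ps hz c)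

variable [NeZero p] [CharZero K]

lemma Xc_ne0 {c : ZMod p} (hc : c ≠ 0) : Xc hz c ≠ 0 := by
  unfold Xc Xu
  refine div_ne_zero (mul_ne_zero (by norm_num) (ps_ne0 hz c)) (pow_ne_zero 2 ?_)
  exact sub_ne_zero.mpr fun h => hc (ps_eq_one hz h)

lemma Xc_one (hp : p.Prime) (h5 : 5 ≤ p) {c : ZMod p} (hc : c ≠ 0) : Xc hz c + 1 ≠ 0 := by
  have h1 : ps hz c - 1 ≠ 0 := sub_ne_zero.mpr fun h => hc (ps_eq_one hz h)
  have h2 : ps hz c + 1 ≠ 0 := fun h => hc (ps_neg_one hz hp h5 (eq_neg_of_add_eq_zero_left h))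
  unfold Xc Xu
  have e : 4 * ps hz c / (ps hz c - 1) ^ 2 + 1 = (ps hz c + 1) ^ 2 / (ps hz c - 1) ^ 2 := by
    field_simp
    ring
  rw [e]
  exact div_ne_zero (pow_ne_zero 2 h2) (pow_ne_zero 2 h1)

lemma Tc_ne0 (hp : p.Prime) (h5 : 5 ≤ p) {c : ZMod p} (hc : c ≠ 0) : Tc hz c ≠ 0 := by
  have h1 : ps hz c - 1 ≠ 0 := sub_ne_zero.mpr fun h => hc (ps_eq_one hz h)
  have h2 : ps hz c + 1 ≠ 0 := fun h => hc (ps_neg_one hz hp h5 (eq_neg_of_add_eq_zero_left h))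
  unfold Tc Tu
  exact div_ne_zero (mul_ne_zero (mul_ne_zero (by norm_num) (ps_ne0 hz c)) h2)
    (pow_ne_zero 3 h1)

lemma Xc_dbl (hp : p.Prime) (h5 : 5 ≤ p) {c : ZMod p} (hc : c ≠ 0) :
    Xc hz (2 * c) * (4 * (Xc hz c + 1)) = Xc hz c ^ 2 := by
  have h1 : ps hz c - 1 ≠ 0 := sub_ne_zero.mpr fun h => hc (ps_eq_one hz h)
  have h2 : ps hz c + 1 ≠ 0 := fun h => hc (ps_neg_one hz hp h5 (eq_neg_of_add_eq_zero_left h))
  have h3 : ps hz c ^ 2 - 1 ≠ 0 := by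
    have : ps hz c ^ 2 - 1 = (ps hz c - 1) * (ps hz c + 1) := by ring
    rw [this]
    exact mul_ne_zero h1 h2
  unfold Xc Xu
  rw [ps_two]
  have e : ps hz c ^ 2 - 1 = (ps hz c - 1) * (ps hz c + 1) := by ring
  rw [e]
  field_simp
  ring

lemma Tc_dbl (hp : p.Prime) (h5 : 5 ≤ p) {c : ZMod p} (hc : c ≠ 0) :
    Tc hz c * (Xc hz c * (Xc hz c + 2)) = 8 * (Xc hz c + 1) ^ 2 * Tc hz (2 * c) := by
  have h1 : ps hz c - 1 ≠ 0 := sub_ne_zero.mpr fun h => hc (ps_eq_one hz h)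
  have h2 : ps hz c + 1 ≠ 0 := fun h => hc (ps_neg_one hz hp h5 (eq_neg_of_add_eq_zero_left h))
  unfold Xc Xu Tc Tu
  rw [ps_two]
  have e : ps hz c ^ 2 - 1 = (ps hz c - 1) * (ps hz c + 1) := by ring
  rw [e]
  field_simp
  ring

lemma Xc_even (c : ZMod p) : Xc hz (-c) = Xc hz c := by
  by_cases hc : c = 0
  · rw [hc, neg_zero]
  have h1 : ps hz c - 1 ≠ 0 := sub_ne_zero.mpr fun h => hc (ps_eq_one hz h)
  have h0 := ps_ne0 hz c
  have h3 : (ps hz c)⁻¹ - 1 ≠ 0 := by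
    intro h
    apply h1
    have := sub_eq_zero.mp h
    rw [inv_eq_one] at this
    rw [this, sub_self]
  have e : (ps hz c)⁻¹ - 1 = -(ps hz c - 1) / ps hz c := by
    field_simp
    ring
  unfold Xc Xu
  rw [ps_neg, e]
  field_simp

lemma Xc_ne {b c : ZMod p} (hb : b ≠ 0) (hc : c ≠ 0) (h : b ≠ c) (h' : b ≠ -c) :
    Xc hz b - Xc hz c ≠ 0 := by
  have h1 : ps hz c - 1 ≠ 0 := sub_ne_zero.mpr fun h => hc (ps_eq_one hz h)
  have h2 : ps hz b - 1 ≠ 0 := sub_ne_zero.mpr fun h => hb (ps_eq_one hz h)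
  have h3 : ps hz c - ps hz b ≠ 0 := sub_ne_zero.mpr fun e => h (ps_inj hz e).symm
  have h4 : ps hz b * ps hz c - 1 ≠ 0 := by
    rw [← ps_add]
    refine sub_ne_zero.mpr fun e => h' ?_
    exact eq_neg_of_add_eq_zero_left (ps_eq_one hz e)
  have e : Xc hz b - Xc hz c = 4 * ((ps hz c - ps hz b) * (ps hz b * ps hz c - 1)) /
      ((ps hz b - 1) ^ 2 * (ps hz c - 1) ^ 2) := by
    unfold Xc Xu
    field_simp
    ring
  rw [e]
  exact div_ne_zero (mul_ne_zero (by norm_num) (mul_ne_zero h3 h4))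
    (mul_ne_zero (pow_ne_zero 2 h2) (pow_ne_zero 2 h1))

/-- the inverse of the abscissa -/
lemma Xc_inv (c : ZMod p) : 1 / Xc hz c = (ps hz c - 2 + ps hz (-c)) / 4 := by
  by_cases hc : c = 0
  · rw [hc, neg_zero, AddChar.map_zero_eq_one]
    unfold Xc Xu
    rw [AddChar.map_zero_eq_one]
    norm_num
  have h1 : ps hz c - 1 ≠ 0 := sub_ne_zero.mpr fun h => hc (ps_eq_one hz h)
  have h0 := ps_ne0 hz c
  unfold Xc Xu
  rw [ps_neg]
  field_simp
  ring

/-- the first order term at the double -/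
lemma xi_dbl (hp : p.Prime) (h5 : 5 ≤ p) {c : ZMod p} (hc : c ≠ 0) :
    4 * (Xc hz c + 1) ^ 2 * xi (Xc hz (2 * c)) * Xc hz c ^ 2 =
      Xc hz c ^ 3 * (Xc hz c + 2) * xi (Xc hz c) - (3 * Xc hz c + 2) ^ 2 := by
  have h0 := Xc_ne0 hz hc
  have h1 := Xc_one hz hp h5 hc
  have h2 := Xc_dbl hz hp h5 hc
  have h3 : Xc hz (2 * c) = Xc hz c ^ 2 / (4 * (Xc hz c + 1)) := by
    rw [eq_div_iff (mul_ne_zero (by norm_num) h1)]
    exact h2
  rw [h3]
  generalize Xc hz c = X at *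
  unfold xi
  field_simp
  ring

lemma z_alg (hp : p.Prime) : IsAlgebraic ℚ z := (hz.isIntegral hp.pos).tower_top.isAlgebraic

lemma ps_alg (hp : p.Prime) (c : ZMod p) : IsAlgebraic ℚ (ps hz c) := by
  rw [ps_apply]
  exact (z_alg hz hp).pow _

lemma alg_ofNat (n : ℕ) [n.AtLeastTwo] : IsAlgebraic ℚ (OfNat.ofNat n : K) := by
  have : (OfNat.ofNat n : K) = algebraMap ℚ K (OfNat.ofNat n) := by
    rw [map_ofNat]
  rw [this]
  exact isAlgebraic_algebraMap _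

lemma Xc_alg (hp : p.Prime) (c : ZMod p) : IsAlgebraic ℚ (Xc hz c) := by
  unfold Xc Xu
  rw [div_eq_mul_inv]
  exact ((alg_ofNat hz 4).mul (ps_alg hz hp c)).mul
    ((((ps_alg hz hp c).sub isAlgebraic_one).pow 2).inv)

lemma Tc_alg (hp : p.Prime) (c : ZMod p) : IsAlgebraic ℚ (Tc hz c) := by
  unfold Tc Tu
  rw [div_eq_mul_inv]
  exact (((alg_ofNat hz 4).neg.mul (ps_alg hz hp c)).mul
    ((ps_alg hz hp c).add isAlgebraic_one)).mul
    ((((ps_alg hz hp c).sub isAlgebraic_one).pow 3).inv)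

end units

end Pool.Agent.TJ
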