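import Pool.Agent.Lib_helper40.TJ.V7

/-!
# The abscissae to first order
-/

set_option autoImplicit false
set_option linter.unusedSectionVars false

namespace Pool.Agent.TJ

variable {K : Type*} [Field K] [CharZero K] {p : ℕ} [NeZero p] {O : ValuationSubring K} {B z : K}
  {x : ZMod p → K}

/-- the exact doubling around the node -/
lemma dbl_exact {B X X2 x x2 : K} (h : x2 * (4 * ff 1 B x) = x ^ 4 - 8 * B * x - 4 * 1 * B)
    (hX : X2 * (4 * (X + 1)) = X ^ 2) :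
    4 * X ^ 2 * (X + 1) ^ 2 * (x2 - X2) = X ^ 3 * (X + 2) * (x - X) - B * (3 * X + 2) ^ 2 +
      (-4 * (X + 1) * (x2 - X2) * ((3 * X ^ 2 + 2 * X) * (x - X) + (3 * X + 1) * (x - X) ^ 2 +
          (x - X) ^ 3 + B) -
        X ^ 2 * ((3 * X + 1) * (x - X) ^ 2 + (x - X) ^ 3) +
        (X + 1) * (6 * X ^ 2 * (x - X) ^ 2 + 4 * X * (x - X) ^ 3 + (x - X) ^ 4 -
          8 * B * (x - X))) := by
  unfold ff at h
  linear_combination (X + 1) * h - (x ^ 3 + x ^ 2 + B) * hX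

section

variable (hv : Res0 O.valuation) (hz : IsPrimitiveRoot z p) (hp : p.Prime) (h5 : 5 ≤ p)

include hv hz hp h5

lemma vX {c : ZMod p} (hc : c ≠ 0) : O.valuation (Xc hz c) = 1 :=
  alg_unit hv (Xc_alg hz hp c) (Xc_ne0 hz hc)

lemma vX1 {c : ZMod p} (hc : c ≠ 0) : O.valuation (Xc hz c + 1) = 1 :=
  alg_unit hv ((Xc_alg hz hp c).add isAlgebraic_one) (Xc_one hz hp h5 hc)

lemma vT {c : ZMod p} (hc : c ≠ 0) : O.valuation (Tc hz c) = 1 :=
  alg_unit hv (Tc_alg hz hp c) (Tc_ne0 hz hp h5 hc)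

lemma vXX {b c : ZMod p} (hb : b ≠ 0) (hc : c ≠ 0) (h : b ≠ c) (h' : b ≠ -c) :
    O.valuation (Xc hz b - Xc hz c) = 1 :=
  alg_unit hv ((Xc_alg hz hp b).sub (Xc_alg hz hp c)) (Xc_ne hz hb hc h h')

end

lemma v_nat (hv : Res0 O.valuation) (n : ℕ) [n.AtLeastTwo] :
    O.valuation (OfNat.ofNat n : K) ≤ 1 := by
  have := hv.int (v := O.valuation) (n : ℤ)
  rw [Int.cast_natCast] at this
  exact this

/-- the remainder is of second order -/
lemma rem_le (hv : Res0 O.valuation) {X δ δ2 B : K} {M γ : O.ValueGroup}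
    (hX : O.valuation X ≤ 1) (hδ : O.valuation δ ≤ M) (hδ2 : O.valuation δ2 ≤ M)
    (hB : O.valuation B ≤ γ) (hMγ : M ≤ γ) (hγ : γ ≤ 1) :
    O.valuation (-4 * (X + 1) * δ2 * ((3 * X ^ 2 + 2 * X) * δ + (3 * X + 1) * δ ^ 2 +
          δ ^ 3 + B) -
        X ^ 2 * ((3 * X + 1) * δ ^ 2 + δ ^ 3) +
        (X + 1) * (6 * X ^ 2 * δ ^ 2 + 4 * X * δ ^ 3 + δ ^ 4 -
          8 * B * δ)) ≤ M * γ := by
  set v := O.valuation
  have o1 : v (1 : K) ≤ 1 := (map_one v).le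
  have n2 := v_nat hv 2
  have n3 := v_nat hv 3
  have n4 := v_nat hv 4
  have n6 := v_nat hv 6
  have n8 := v_nat hv 8
  have hδ1 : v δ ≤ 1 := hδ.trans (hMγ.trans hγ)
  have hδγ : v δ ≤ γ := hδ.trans hMγ
  have hX1 : v (X + 1) ≤ 1 := v_int_add hX o1
  -- `a` integral times a product of two small ones
  have small : ∀ {a b c : K}, v a ≤ 1 → v b ≤ M → v c ≤ γ → v (a * (b * c)) ≤ M * γ := by
    intro a b c ha hb hc
    rw [map_mul, map_mul]
    exact (mul_le_of_le_one_left' ha).trans (mul_le_mul' hb hc)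
  have e : -4 * (X + 1) * δ2 * ((3 * X ^ 2 + 2 * X) * δ + (3 * X + 1) * δ ^ 2 +
          δ ^ 3 + B) -
        X ^ 2 * ((3 * X + 1) * δ ^ 2 + δ ^ 3) +
        (X + 1) * (6 * X ^ 2 * δ ^ 2 + 4 * X * δ ^ 3 + δ ^ 4 -
          8 * B * δ) =
      (-4 * (X + 1) * ((3 * X ^ 2 + 2 * X) + (3 * X + 1) * δ + δ ^ 2)) * (δ2 * δ) +
      ((-4 * (X + 1)) * (δ2 * B) +
      ((- X ^ 2 * ((3 * X + 1) + δ) + (X + 1) * (6 * X ^ 2 + 4 * X * δ + δ ^ 2)) * (δ * δ) +
      (-8 * (X + 1)) * (δ * B))) := by ring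
  rw [e]
  have m4 : v (-4 : K) ≤ 1 := by rw [Valuation.map_neg]; exact n4
  have m8 : v (-8 : K) ≤ 1 := by rw [Valuation.map_neg]; exact n8
  have i1 : v (3 * X ^ 2 + 2 * X) ≤ 1 := v_int_add (v_int_mul n3 (v_int_pow hX 2))
    (v_int_mul n2 hX)
  have i2 : v (3 * X + 1) ≤ 1 := v_int_add (v_int_mul n3 hX) o1
  have i3 : v (δ ^ 2) ≤ 1 := v_int_pow hδ1 2
  have i4 : v (- X ^ 2) ≤ 1 := by rw [Valuation.map_neg]; exact v_int_pow hX 2
  refine (v.map_add _ _).trans (max_le (small ?_ hδ2 hδγ) ((v.map_add _ _).trans (max_le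
    (small ?_ hδ2 hB) ((v.map_add _ _).trans (max_le (small ?_ hδ hδγ) (small ?_ hδ hB))))))
  · exact v_int_mul (v_int_mul m4 hX1) (v_int_add (v_int_add i1 (v_int_mul i2 hδ1)) i3)
  · exact v_int_mul m4 hX1
  · exact v_int_add (v_int_mul i4 (v_int_add i2 hδ1)) (v_int_mul hX1 (v_int_add (v_int_add
      (v_int_mul n6 (v_int_pow hX 2)) (v_int_mul (v_int_mul n4 hX) hδ1)) i3))
  · exact v_int_mul m8 hX1

variable (hv : Res0 O.valuation) (hz : IsPrimitiveRoot z p) (hp : p.Prime) (h5 : 5 ≤ p)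
  (t : Tor p 1 B x) (hB0 : B ≠ 0) (hB : O.valuation B < 1)
  (hx : ∀ c, c ≠ 0 → O.valuation (x c - Xc hz c) < 1)

include hv hp h5 t hB0 hB hx

/-- the abscissae are those of the roots of unity up to `B` -/
theorem first {c : ZMod p} (hc : c ≠ 0) : O.valuation (x c - Xc hz c) ≤ O.valuation B := by
  set v := O.valuation with hvdef
  have hne : (Finset.univ.erase (0 : ZMod p)).Nonempty := by
    have := Fact.mk hp
    exact ⟨1, Finset.mem_erase.mpr ⟨one_ne_zero, Finset.mem_univ _⟩⟩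
  obtain ⟨b, hbm, hmax⟩ := Finset.exists_max_image _ (fun c => v (x c - Xc hz c)) hne
  have hb : b ≠ 0 := (Finset.mem_erase.mp hbm).1
  have hmax : ∀ c, c ≠ 0 → v (x c - Xc hz c) ≤ v (x b - Xc hz b) := fun c hc =>
    hmax c (Finset.mem_erase.mpr ⟨hc, Finset.mem_univ _⟩)
  set M := v (x b - Xc hz b) with hM
  have hM1 : M < 1 := hx b hb
  refine (hmax c hc).trans ?_
  by_contra hcon
  push Not at hcon
  have hβ : 0 < v B := zero_lt_iff.mpr ((v.ne_zero_iff).mpr hB0)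
  have hM0 : 0 < M := lt_trans hβ hcon
  set γ := max (v B) (M * M) with hγ
  have hγM : γ < M := max_lt hcon (mul_self_lt hM1 hM0)
  have hstep : ∀ c, c ≠ 0 → v ((x (2 * c) - Xc hz (2 * c)) / Tc hz (2 * c) -
      2 * ((x c - Xc hz c) / Tc hz c)) ≤ γ := by
    intro c hc
    have h2c := two_mul_ne hp h5 hc
    have E := dbl_exact (t.dbl c hc) (Xc_dbl hz hp h5 hc)
    have R := rem_le (O := O) hv (X := Xc hz c) (δ := x c - Xc hz c)
      (δ2 := x (2 * c) - Xc hz (2 * c)) (B := B) (M := M) (γ := M) (vX hv hz hp h5 hc).le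
      (hmax c hc) (hmax _ h2c) hcon.le le_rfl hM1.le
    set R' := (-4 * (Xc hz c + 1) * (x (2 * c) - Xc hz (2 * c)) * ((3 * Xc hz c ^ 2 +
      2 * Xc hz c) * (x c - Xc hz c) + (3 * Xc hz c + 1) * (x c - Xc hz c) ^ 2 +
          (x c - Xc hz c) ^ 3 + B) -
        Xc hz c ^ 2 * ((3 * Xc hz c + 1) * (x c - Xc hz c) ^ 2 + (x c - Xc hz c) ^ 3) +
        (Xc hz c + 1) * (6 * Xc hz c ^ 2 * (x c - Xc hz c) ^ 2 + 4 * Xc hz c * (x c - Xc hz c) ^ 3 +
          (x c - Xc hz c) ^ 4 - 8 * B * (x c - Xc hz c))) with hR'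
    have T1 := Tc_dbl hz hp h5 hc
    have t0 := Tc_ne0 hz hp h5 hc
    have t2 := Tc_ne0 hz hp h5 h2c
    have x0 := Xc_ne0 hz hc
    have x1 := Xc_one hz hp h5 hc
    have e : ((x (2 * c) - Xc hz (2 * c)) / Tc hz (2 * c) - 2 * ((x c - Xc hz c) / Tc hz c)) *
        (4 * Xc hz c ^ 2 * (Xc hz c + 1) ^ 2 * Tc hz (2 * c)) =
        -(B * (3 * Xc hz c + 2) ^ 2) + R' := by
      have e1 : ((x (2 * c) - Xc hz (2 * c)) / Tc hz (2 * c) - 2 * ((x c - Xc hz c) / Tc hz c)) *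
        (4 * Xc hz c ^ 2 * (Xc hz c + 1) ^ 2 * Tc hz (2 * c)) =
        4 * Xc hz c ^ 2 * (Xc hz c + 1) ^ 2 * (x (2 * c) - Xc hz (2 * c)) -
        (Xc hz c ^ 2 * (x c - Xc hz c) / Tc hz c) *
          (8 * (Xc hz c + 1) ^ 2 * Tc hz (2 * c)) := by
        field_simp
        ring
      rw [e1, ← T1, E]
      field_simp
      ring
    have ev := congrArg v e
    rw [map_mul, map_mul, map_mul, map_mul, map_pow, map_pow, vX hv hz hp h5 hc,
      vX1 hv hz hp h5 hc, vT hv hz hp h5 h2c, hv.four, one_pow, mul_one, mul_one,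
      mul_one, mul_one] at ev
    rw [ev]
    refine (v.map_add _ _).trans (max_le_max ?_ R)
    rw [Valuation.map_neg, map_mul]
    refine mul_le_of_le_one_right' ?_
    exact v_int_pow (v_int_add (v_int_mul (v_nat hv 3) (vX hv hz hp h5 hc).le) (v_nat hv 2)) 2
  have h1 := rec_le (v := v) hv hp h5 (h := fun c => (x c - Xc hz c) / Tc hz c) hstep hb
  simp only [map_div₀] at h1
  rw [vT hv hz hp h5 hb, div_one] at h1
  exact absurd hγM (not_lt.mpr h1)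

/-- the abscissae to first order -/
theorem second {c : ZMod p} (hc : c ≠ 0) :
    O.valuation (x c - Xc hz c - B * xi (Xc hz c)) < O.valuation B := by
  set v := O.valuation with hvdef
  have hβ : 0 < v B := zero_lt_iff.mpr ((v.ne_zero_iff).mpr hB0)
  have hstep : ∀ c, c ≠ 0 → v ((x (2 * c) - Xc hz (2 * c) - B * xi (Xc hz (2 * c))) /
      Tc hz (2 * c) - 2 * ((x c - Xc hz c - B * xi (Xc hz c)) / Tc hz c)) < v B := by
    intro c hc
    have h2c := two_mul_ne hp h5 hc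
    have E := dbl_exact (t.dbl c hc) (Xc_dbl hz hp h5 hc)
    have R := rem_le (O := O) hv (X := Xc hz c) (δ := x c - Xc hz c)
      (δ2 := x (2 * c) - Xc hz (2 * c)) (B := B) (M := v B) (γ := v B) (vX hv hz hp h5 hc).le
      (first hv hz hp h5 t hB0 hB hx hc) (first hv hz hp h5 t hB0 hB hx h2c) le_rfl le_rfl hB.le
    set R' := (-4 * (Xc hz c + 1) * (x (2 * c) - Xc hz (2 * c)) * ((3 * Xc hz c ^ 2 +
      2 * Xc hz c) * (x c - Xc hz c) + (3 * Xc hz c + 1) * (x c - Xc hz c) ^ 2 +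
          (x c - Xc hz c) ^ 3 + B) -
        Xc hz c ^ 2 * ((3 * Xc hz c + 1) * (x c - Xc hz c) ^ 2 + (x c - Xc hz c) ^ 3) +
        (Xc hz c + 1) * (6 * Xc hz c ^ 2 * (x c - Xc hz c) ^ 2 + 4 * Xc hz c * (x c - Xc hz c) ^ 3 +
          (x c - Xc hz c) ^ 4 - 8 * B * (x c - Xc hz c))) with hR'
    have T1 := Tc_dbl hz hp h5 hc
    have t0 := Tc_ne0 hz hp h5 hc
    have t2 := Tc_ne0 hz hp h5 h2c
    have x0 := Xc_ne0 hz hc
    have x1 := Xc_one hz hp h5 hc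
    have X1 := xi_dbl hz hp h5 hc
    have e : ((x (2 * c) - Xc hz (2 * c) - B * xi (Xc hz (2 * c))) / Tc hz (2 * c) -
        2 * ((x c - Xc hz c - B * xi (Xc hz c)) / Tc hz c)) *
        (4 * Xc hz c ^ 2 * (Xc hz c + 1) ^ 2 * Tc hz (2 * c)) = R' := by
      have e1 : ((x (2 * c) - Xc hz (2 * c) - B * xi (Xc hz (2 * c))) / Tc hz (2 * c) -
        2 * ((x c - Xc hz c - B * xi (Xc hz c)) / Tc hz c)) *
        (4 * Xc hz c ^ 2 * (Xc hz c + 1) ^ 2 * Tc hz (2 * c)) =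
        4 * Xc hz c ^ 2 * (Xc hz c + 1) ^ 2 * (x (2 * c) - Xc hz (2 * c)) -
        B * (4 * (Xc hz c + 1) ^ 2 * xi (Xc hz (2 * c)) * Xc hz c ^ 2) -
        (Xc hz c ^ 2 * (x c - Xc hz c - B * xi (Xc hz c)) / Tc hz c) *
          (8 * (Xc hz c + 1) ^ 2 * Tc hz (2 * c)) := by
        field_simp
        ring
      rw [e1, ← T1, E, X1]
      field_simp
      ring
    have ev := congrArg v e
    rw [map_mul, map_mul, map_mul, map_mul, map_pow, map_pow, vX hv hz hp h5 hc,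
      vX1 hv hz hp h5 hc, vT hv hz hp h5 h2c, hv.four, one_pow, mul_one, mul_one,
      mul_one, mul_one] at ev
    rw [ev]
    exact lt_of_le_of_lt R (mul_self_lt hB hβ)
  have h1 := rec_lt (v := v) hv hp h5
    (h := fun c => (x c - Xc hz c - B * xi (Xc hz c)) / Tc hz c) hstep hc
  simp only [map_div₀] at h1
  rw [vT hv hz hp h5 hc, div_one] at h1
  exact h1

end Pool.Agent.TJ
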