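import Pool.Agent.Lib_helper40.TJ.V8

/-!
# The numbers `γ(c)` to first order
-/

set_option autoImplicit false
set_option linter.unusedSectionVars false

namespace Pool.Agent.TJ

lemma sum_split {p : ℕ} [NeZero p] (hp : p.Prime) (h5 : 5 ≤ p) {M : Type*} [AddCommMonoid M]
    (F : ZMod p → M) {b : ZMod p} (hb : b ≠ 0) :
    ∑ c, F c = F 0 + (F b + (F (-b) + ∑ c ∈ Sb b, F c)) := by
  unfold Sb
  rw [Finset.add_sum_erase, Finset.add_sum_erase, Finset.add_sum_erase]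
  · exact Finset.mem_univ _
  · exact Finset.mem_erase.mpr ⟨hb, Finset.mem_univ _⟩
  · exact Finset.mem_erase.mpr ⟨neg_ne hp h5 hb, Finset.mem_erase.mpr
      ⟨neg_ne_zero.mpr hb, Finset.mem_univ _⟩⟩

lemma gax_Sb {K : Type*} [Field K] {p : ℕ} [NeZero p] (hp : p.Prime) (h5 : 5 ≤ p) (A B : K)
    (x : ZMod p → K) {c : ZMod p} (hc : c ≠ 0) :
    gax A B x c = 4 * ff A B (x c) * ∏ b ∈ Sb c, (x c - x b) := by
  unfold gax
  congr 1
  rw [prod_split hp h5 _ hc, if_pos (Or.inl rfl), if_pos (Or.inr (Or.inl rfl)),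
    if_pos (Or.inr (Or.inr rfl)), one_mul, one_mul, one_mul]
  refine Finset.prod_congr rfl fun b hb => ?_
  obtain ⟨b1, b2, b3⟩ := mem_Sb.mp hb
  rw [if_neg]
  rintro (h | h | h)
  · exact b3 h
  · exact b2 h
  · exact b1 h

variable {K : Type*} [Field K] [CharZero K] {p : ℕ} [NeZero p] {O : ValuationSubring K} {B z : K}
  {x : ZMod p → K}

section

variable (hz : IsPrimitiveRoot z p) (hp : p.Prime) (h5 : 5 ≤ p)

include hz hp h5

lemma ff0 {c : ZMod p} : ff 1 0 (Xc hz c) = Xc hz c ^ 2 * (Xc hz c + 1) := by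
  unfold ff
  ring

lemma ff0_ne {c : ZMod p} (hc : c ≠ 0) : ff 1 0 (Xc hz c) ≠ 0 := by
  rw [ff0 hz hp h5]
  exact mul_ne_zero (pow_ne_zero 2 (Xc_ne0 hz hc)) (Xc_one hz hp h5 hc)

lemma g0_ne {c : ZMod p} (hc : c ≠ 0) : gax 1 0 (Xc hz) c ≠ 0 := by
  rw [gax_Sb hp h5 _ _ _ hc]
  refine mul_ne_zero (mul_ne_zero (by norm_num) (ff0_ne hz hp h5 hc)) ?_
  rw [Finset.prod_ne_zero_iff]
  intro b hb
  obtain ⟨b1, b2, b3⟩ := mem_Sb.mp hb
  exact Xc_ne hz hc b3 (fun e => b2 e.symm) (fun e => b1 (by rw [e, neg_neg]))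

lemma g0_alg {c : ZMod p} (hc : c ≠ 0) : IsAlgebraic ℚ (gax 1 0 (Xc hz) c) := by
  rw [gax_Sb hp h5 _ _ _ hc, ff0 hz hp h5]
  refine ((alg_ofNat hz 4).mul (((Xc_alg hz hp c).pow 2).mul
    ((Xc_alg hz hp c).add isAlgebraic_one))).mul ?_
  induction (Sb c) using Finset.cons_induction with
  | empty => rw [Finset.prod_empty]; exact isAlgebraic_one
  | cons a s ha ih =>
    rw [Finset.prod_cons]
    exact ((Xc_alg hz hp c).sub (Xc_alg hz hp a)).mul ih

/-- the sum of the inverse abscissae -/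
lemma sum_inv : ∑ b : ZMod p, 1 / Xc hz b = -(p : K) / 2 := by
  have hne : ps hz ≠ 1 := by
    intro h
    have h1 : ps hz 1 = 1 := by rw [h]; rfl
    have h2 := ps_eq_one hz h1
    have := Fact.mk hp
    exact one_ne_zero h2
  have h0 : ∑ b : ZMod p, ps hz b = 0 := AddChar.sum_eq_zero_of_ne_one hne
  have h0' : ∑ b : ZMod p, ps hz (-b) = 0 := by
    rw [← h0]
    exact Equiv.sum_comp (Equiv.neg (ZMod p)) (fun b => ps hz b)
  rw [Finset.sum_congr rfl fun b _ => Xc_inv hz b, ← Finset.sum_div, Finset.sum_add_distrib,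
    Finset.sum_sub_distrib, h0, h0', Finset.sum_const, Finset.card_univ, ZMod.card, nsmul_eq_mul]
  ring

/-- the first order coefficient of `γ(c)` -/
lemma kap {c : ZMod p} (hc : c ≠ 0) :
    ((3 * Xc hz c ^ 2 + 2 * Xc hz c) * xi (Xc hz c) + 1) / ff 1 0 (Xc hz c) +
      ∑ b ∈ Sb c, (xi (Xc hz c) - xi (Xc hz b)) / (Xc hz c - Xc hz b) =
    15 * p / 8 - p / 8 * (1 / Xc hz c) := by
  have h0 := Xc_ne0 hz hc
  have h1 := Xc_one hz hp h5 hc
  have e1 : ∀ b ∈ Sb c, (xi (Xc hz c) - xi (Xc hz b)) / (Xc hz c - Xc hz b) =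
      15 / 8 + 1 / (4 * Xc hz c) * (1 / Xc hz b) := by
    intro b hb
    obtain ⟨b1, b2, b3⟩ := mem_Sb.mp hb
    have h2 := Xc_ne hz hc b3 (fun e => b2 e.symm) (fun e => b1 (by rw [e, neg_neg]))
    have h3 := Xc_ne0 hz b3
    unfold xi
    field_simp
    ring
  have hcard : ((Sb c).card : K) = p - 3 := by
    have := card_Sb hp h5 hc
    have h2 : ((Sb c).card : K) + 3 = p := by exact_mod_cast congrArg (Nat.cast (R := K)) this
    rw [← h2]; ring
  have e2 : ∑ b ∈ Sb c, 1 / Xc hz b = -(p : K) / 2 - 2 * (1 / Xc hz c) := by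
    have h2 := sum_split hp h5 (fun b => 1 / Xc hz b) hc
    rw [sum_inv hz hp h5, Xc_even hz c] at h2
    have h3 : 1 / Xc hz (0 : ZMod p) = 0 := by
      rw [Xc_inv, neg_zero, AddChar.map_zero_eq_one]
      norm_num
    rw [h3] at h2
    linear_combination -h2
  rw [Finset.sum_congr rfl e1, Finset.sum_add_distrib, Finset.sum_const, nsmul_eq_mul, hcard,
    ← Finset.mul_sum, e2, ff0 hz hp h5]
  generalize Xc hz c = X at *
  unfold xi
  field_simp
  ring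

end

section

variable (hv : Res0 O.valuation) (hz : IsPrimitiveRoot z p) (hp : p.Prime) (h5 : 5 ≤ p)
  (t : Tor p 1 B x) (hB0 : B ≠ 0) (hB : O.valuation B < 1)
  (hx : ∀ c, c ≠ 0 → O.valuation (x c - Xc hz c) < 1)

include hv hp h5 t hB0 hB hx

lemma vxi {c : ZMod p} (hc : c ≠ 0) : O.valuation (xi (Xc hz c)) ≤ 1 := by
  have h := vX hv hz hp h5 hc
  unfold xi
  refine v_int_add (v_int_add ?_ ?_) ?_
  · rw [map_div₀, Valuation.map_neg, map_one, map_mul, hv.four, h, mul_one, div_one]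
  · rw [map_div₀, hv.eight, div_one]
    exact v_nat hv 5
  · rw [map_div₀, hv.eight, div_one, map_mul, h, mul_one]
    exact v_nat hv 15

lemma fst_ff {c : ZMod p} (hc : c ≠ 0) :
    Fst O.valuation B (ff 1 B (x c) / ff 1 0 (Xc hz c))
      (((3 * Xc hz c ^ 2 + 2 * Xc hz c) * xi (Xc hz c) + 1) / ff 1 0 (Xc hz c)) := by
  have hX := (vX hv hz hp h5 hc).le
  have hβ : 0 < O.valuation B := zero_lt_iff.mpr ((O.valuation.ne_zero_iff).mpr hB0)
  have i1 : O.valuation (3 * Xc hz c ^ 2 + 2 * Xc hz c) ≤ 1 :=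
    v_int_add (v_int_mul (v_nat hv 3) (v_int_pow hX 2)) (v_int_mul (v_nat hv 2) hX)
  refine Fst.of_diff ?_ ?_ ?_
  · rw [ff0 hz hp h5, map_mul, map_pow, vX hv hz hp h5 hc, vX1 hv hz hp h5 hc, one_pow, one_mul]
  · exact v_int_add (v_int_mul i1 (vxi hv hz hp h5 t hB0 hB hx hc)) (map_one _).le
  · have h1 := first hv hz hp h5 t hB0 hB hx hc
    have h2 := second hv hz hp h5 t hB0 hB hx hc
    have e : ff 1 B (x c) - ff 1 0 (Xc hz c) -
        B * ((3 * Xc hz c ^ 2 + 2 * Xc hz c) * xi (Xc hz c) + 1) =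
        (3 * Xc hz c ^ 2 + 2 * Xc hz c) * (x c - Xc hz c - B * xi (Xc hz c)) +
        (3 * Xc hz c + 1 + (x c - Xc hz c)) * ((x c - Xc hz c) * (x c - Xc hz c)) := by
      unfold ff
      ring
    rw [e]
    refine lt_of_le_of_lt (O.valuation.map_add _ _) (max_lt ?_ ?_)
    · rw [map_mul]
      exact lt_of_le_of_lt (mul_le_of_le_one_left' i1) h2
    · rw [map_mul, map_mul]
      have i2 : O.valuation (3 * Xc hz c + 1 + (x c - Xc hz c)) ≤ 1 :=
        v_int_add (v_int_add (v_int_mul (v_nat hv 3) hX) (map_one _).le) (h1.trans hB.le)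
      refine lt_of_le_of_lt (mul_le_of_le_one_left' i2) ?_
      exact lt_of_le_of_lt (mul_le_mul' h1 h1) (mul_self_lt hB hβ)

lemma fst_sub {b c : ZMod p} (hb : b ≠ 0) (hc : c ≠ 0) (h : c ≠ b) (h' : c ≠ -b) :
    Fst O.valuation B ((x c - x b) / (Xc hz c - Xc hz b))
      ((xi (Xc hz c) - xi (Xc hz b)) / (Xc hz c - Xc hz b)) := by
  refine Fst.of_diff (vXX hv hz hp h5 hc hb h h')
    (v_int_sub (vxi hv hz hp h5 t hB0 hB hx hc) (vxi hv hz hp h5 t hB0 hB hx hb)) ?_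
  have e : x c - x b - (Xc hz c - Xc hz b) - B * (xi (Xc hz c) - xi (Xc hz b)) =
      (x c - Xc hz c - B * xi (Xc hz c)) - (x b - Xc hz b - B * xi (Xc hz b)) := by ring
  rw [e]
  exact lt_of_le_of_lt (O.valuation.map_sub _ _) (max_lt (second hv hz hp h5 t hB0 hB hx hc)
    (second hv hz hp h5 t hB0 hB hx hb))

/-- the numbers `γ(c)` to first order -/
theorem fst_gax {c : ZMod p} (hc : c ≠ 0) :
    Fst O.valuation B (gax 1 B x c / gax 1 0 (Xc hz) c) (15 * p / 8 - p / 8 * (1 / Xc hz c)) := by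
  have h1 := (fst_ff hv hz hp h5 t hB0 hB hx hc).mul hB0 hB (Fst.prod hB0 hB (Sb c)
    (a := fun b => (x c - x b) / (Xc hz c - Xc hz b))
    (α := fun b => (xi (Xc hz c) - xi (Xc hz b)) / (Xc hz c - Xc hz b)) fun b hb => by
      obtain ⟨b1, b2, b3⟩ := mem_Sb.mp hb
      exact fst_sub hv hz hp h5 t hB0 hB hx b3 hc (fun e => b2 e.symm)
        (fun e => b1 (by rw [e, neg_neg])))
  rw [kap hz hp h5 hc] at h1
  have e : gax 1 B x c / gax 1 0 (Xc hz) c = ff 1 B (x c) / ff 1 0 (Xc hz c) *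
      ∏ b ∈ Sb c, (x c - x b) / (Xc hz c - Xc hz b) := by
    rw [gax_Sb hp h5 _ _ _ hc, gax_Sb hp h5 _ _ _ hc, Finset.prod_div_distrib]
    rw [mul_div_mul_comm, mul_div_mul_left _ _ (by norm_num : (4 : K) ≠ 0)]
  rw [e]
  exact h1

end

end Pool.Agent.TJ
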